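import Pool.Agent.H89R3.Z2

/-!
# Linearization of an involution, equivariant for commuting diagonal automorphisms
(after `Pool/Agent/H89R3/Main.lean` and `Pool/Agent/H89R3/BF.lean`)
-/

set_option autoImplicit false

open ExteriorAlgebra

noncomputable section

namespace Pool.Agent.Y207.GR

open Pool.Agent.H89R3.Gr

variable {F : Type*} [Field F] (h2 : (2:F) ≠ 0)

/-- The automorphism `D` is diagonal. -/
def Diag (D : E F ≃ₐ[F] E F) : Prop := ∃ η : ℕ → F, ∀ i, D (e i) = η i • e i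

lemma diag_pr {D : E F ≃ₐ[F] E F} (hD : Diag D) (N : ℕ) (x : E F) :
    D (pr h2 N x) = pr h2 N (D x) := by
  obtain ⟨η, hη⟩ := hD
  have h3 : (D : E F →ₐ[F] E F).comp (pr h2 N) = (pr h2 N).comp (D : E F →ₐ[F] E F) := by
    apply hom_ext'
    intro i
    change D (pr h2 N (e i)) = pr h2 N (D (e i))
    rcases lt_or_ge i N with h | h
    · rw [pr_e_lt h2 h, hη, map_smul, pr_e_lt h2 h]
    · rw [pr_e_ge h2 h, hη, map_smul, pr_e_ge h2 h, smul_zero, map_zero]
  exact congrArg (fun l : E F →ₐ[F] E F => l x) h3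

theorem main_lemma' {ε : ℕ → F} {φ : E F ≃ₐ[F] E F} (hφ : Good ε φ)
    {S : Set (E F ≃ₐ[F] E F)} (hS : ∀ D ∈ S, Diag D) (hφS : ∀ D ∈ S, Commute D φ) (N : ℕ) :
    ∃ γ : E F ≃ₐ[F] E F, γ * tau = tau * γ ∧ (∀ x, γ x - x ∈ (Fil 2 : Submodule F (E F))) ∧
      (∀ x ∈ Sub h2 N, γ⁻¹ (φ (γ x)) ∈ Sub h2 N) ∧
      (∀ x ∈ Sub h2 N, φ x ∈ Sub h2 N → γ x = x) ∧ ∀ D ∈ S, Commute D γ := by
  classical
  have hφφ : ∀ x, φ (φ x) = x := fun x => by
    have := congrArg (fun l : E F ≃ₐ[F] E F => l x) hφ.sq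
    simpa using this
  have hφodd : ∀ i, tau (φ (e i)) = - φ (e i) := tau_odd_of_comm hφ.comm
  -- the approximation
  set f : ℕ → E F := fun i => if i < N then pr h2 N (φ (e i)) else φ (e i) with hf
  have hfodd : ∀ i, tau (f i) = - f i := by
    intro i
    simp only [hf]
    split_ifs with h
    · rw [pr_tau, hφodd, map_neg]
    · exact hφodd i
  set φ1 : E F →ₐ[F] E F := L h2 f hfodd with hφ1
  have hφ1e : ∀ i, φ1 (e i) = f i := fun i => by rw [hφ1, L_e]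
  have hφ1pr : ∀ x ∈ Sub h2 N, φ1 x = pr h2 N (φ x) := by
    intro x hx
    have : φ1.comp (pr h2 N) = ((pr h2 N).comp (φ : E F →ₐ[F] E F)).comp (pr h2 N) := by
      apply hom_ext'
      intro i
      simp only [AlgHom.comp_apply]
      rcases lt_or_ge i N with h | h
      · rw [pr_e_lt h2 h, hφ1e, hf]; simp [h]
      · rw [pr_e_ge h2 h]; simp
    have h3 := congrArg (fun l : E F →ₐ[F] E F => l x) this
    simp only [AlgHom.comp_apply] at h3
    rwa [(mem_Sub h2).mp hx] at h3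
  -- the ideal
  set Y0 : Submodule F (E F) := Submodule.span F ((fun i => φ (e i) - pr h2 N (φ (e i))) '' Set.Iio N) with hY0
  set Y : Submodule F (E F) := Y0 ⊔ Y0.map φ.toLinearMap with hYdef
  have hY0fg : Y0.FG := Submodule.fg_span ((Set.finite_Iio N).image _)
  have hYfg : Y.FG := hY0fg.sup (hY0fg.map _)
  have hY0odd : ∀ y ∈ Y0, tau y = -y := by
    intro y hy
    induction hy using Submodule.span_induction with
    | mem x hx =>
      obtain ⟨i, _, rfl⟩ := hx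
      simp only [map_sub, pr_tau, hφodd, map_neg]; abel
    | zero => simp
    | add a b _ _ ha hb => rw [map_add, ha, hb]; abel
    | smul c a _ ha => rw [map_smul, ha, smul_neg]
  have hYodd : ∀ y ∈ Y, tau y = -y := by
    intro y hy
    obtain ⟨a, ha, b, hb, rfl⟩ := Submodule.mem_sup.mp hy
    obtain ⟨c, hc, rfl⟩ := hb
    have h1 : tau (φ c) = - φ c := by rw [comm_apply hφ.comm, hY0odd c hc, map_neg]
    rw [map_add, hY0odd a ha]
    change -a + tau (φ c) = -(a + φ c)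
    rw [h1]; abel
  have hYφ : ∀ y ∈ Y, φ y ∈ Y := by
    intro y hy
    obtain ⟨a, ha, b, hb, rfl⟩ := Submodule.mem_sup.mp hy
    obtain ⟨c, hc, rfl⟩ := hb
    rw [map_add, add_comm]
    apply Submodule.add_mem_sup
    · change φ (φ c) ∈ Y0
      rwa [hφφ]
    · exact ⟨a, ha, rfl⟩
  set I : Submodule F (E F) := ⊤ * Y with hI
  have hI1 : ⊤ * I ≤ I := by rw [hI, ← mul_assoc, top_mul_top]
  have hI3 : I * ⊤ ≤ I := by
    calc I * ⊤ = ⊤ * (Y * ⊤) := by rw [hI, mul_assoc]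
      _ ≤ ⊤ * (⊤ * Y) := mul_le_mul' le_rfl (Y_mul_top h2 hYodd)
      _ = I := by rw [← mul_assoc, top_mul_top]
  have hYI : Y ≤ I := fun y hy => by
    have := Submodule.mul_mem_mul (Submodule.mem_top (x := (1 : E F)) (R := F)) hy
    simpa [hI] using this
  have hIφ : ∀ x ∈ I, φ x ∈ I := by
    intro x hx
    rw [hI] at hx
    induction hx using Submodule.mul_induction_on' with
    | mem_mul_mem a _ b hb => rw [map_mul]; exact Submodule.mul_mem_mul trivial (hYφ b hb)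
    | add a _ b _ ha hb => rw [map_add]; exact I.add_mem ha hb
  -- `φ1` versus `φ`
  have hA : ∀ x, φ1 x - φ x ∈ I := by
    intro x
    apply diff_ideal (f := φ1) (g := (φ : E F →ₐ[F] E F)) hI1 hI3
    intro i
    change φ1 (e i) - φ (e i) ∈ I
    rw [hφ1e, hf]
    simp only
    split_ifs with h
    · apply hYI
      apply Submodule.mem_sup_left
      have h1 : φ (e i) - pr h2 N (φ (e i)) ∈ Y0 := Submodule.subset_span ⟨i, h, rfl⟩
      have := Y0.neg_mem h1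
      simpa using this
    · simp
  have hB : ∀ x ∈ I, φ1 x ∈ I := by
    intro x hx
    have := I.add_mem (hA x) (hIφ x hx)
    simpa using this
  have hprFil : ∀ (k : ℕ) (x : E F), x ∈ (Fil k : Submodule F (E F)) → pr h2 N x ∈ (Fil k : Submodule F (E F)) := by
    intro k x hx
    apply hom_Fil h2 _ k hx
    intro i
    rcases lt_or_ge i N with h | h
    · rw [pr_e_lt h2 h]; exact e_mem_Fil i
    · rw [pr_e_ge h2 h]; exact Submodule.zero_mem _
  have hφ1odd : ∀ i, tau (φ1 (e i)) = - φ1 (e i) := fun i => by rw [hφ1e]; exact hfodd i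
  have hφ1Fil : ∀ (k : ℕ) (x : E F), x ∈ (Fil k : Submodule F (E F)) → φ1 x ∈ (Fil k : Submodule F (E F)) := by
    intro k x hx
    exact hom_Fil h2 (fun i => odd_mem_Fil h2 (hφ1odd i)) k hx
  have hφ1lin : ∀ i, φ1 (e i) - ε i • e i ∈ (Fil 2 : Submodule F (E F)) := by
    intro i
    rw [hφ1e, hf]
    simp only
    split_ifs with h
    · have := hprFil 2 _ (hφ.lin i)
      rwa [map_sub, map_smul, pr_e_lt h2 h] at this
    · exact hφ.lin i
  have hA2 : ∀ x, φ1 x - φ x ∈ (Fil 2 : Submodule F (E F)) := by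
    intro x
    apply diff_Fil h2 (f := φ1) (g := (φ : E F →ₐ[F] E F))
    intro i
    have := Submodule.sub_mem _ (hφ1lin i) (hφ.lin i)
    simpa using this
  -- `s = φ1 ∘ φ1`
  set s0 : E F →ₐ[F] E F := φ1.comp φ1 with hs0
  have hs0I : ∀ x, s0 x - x ∈ I := by
    intro x
    have h1 : s0 x - x = (φ1 (φ1 x) - φ (φ1 x)) + φ (φ1 x - φ x) := by
      rw [map_sub, hφφ]; simp [hs0]
    rw [h1]
    exact I.add_mem (hA _) (hIφ _ (hA x))
  have hs0F : ∀ x, s0 x - x ∈ (Fil 2 : Submodule F (E F)) := by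
    intro x
    have h1 : s0 x - x = (φ1 (φ1 x) - φ (φ1 x)) + φ (φ1 x - φ x) := by
      rw [map_sub, hφφ]; simp [hs0]
    rw [h1]
    exact Submodule.add_mem _ (hA2 _) (comm_Fil h2 hφ.comm 2 (hA2 x))
  have hs0LN : LN (s0.toLinearMap - 1) := LF h2 hYfg hYodd hs0I (fun i => hs0F _)
  have hs0bij : Function.Bijective s0 := by
    have h1 := bij_of_LN h2 hs0LN
    have h3 : (1 + (s0.toLinearMap - 1) : Module.End F (E F)) = s0.toLinearMap := by abel
    rw [h3] at h1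
    exact h1
  have hφ1bij : Function.Bijective φ1 := by
    have h1 : Function.Bijective (φ1 ∘ φ1) := hs0bij
    exact ⟨h1.1.of_comp, h1.2.of_comp⟩
  set Φ : E F ≃ₐ[F] E F := AlgEquiv.ofBijective φ1 hφ1bij with hΦ
  have hΦa : ∀ x, Φ x = φ1 x := fun x => rfl
  have hΦτ : Φ * tau = tau * Φ := by
    ext x
    exact (comm_tau hφ1odd x).symm
  have hΦS : ∀ D ∈ S, Commute D Φ := by
    intro D hD
    obtain ⟨η, hη⟩ := hS D hD
    have hfD : ∀ i, D (f i) = η i • f i := by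
      intro i
      have h1 : D (φ (e i)) = η i • φ (e i) := by
        have h0 : D (φ (e i)) = φ (D (e i)) :=
          congrArg (fun l : E F ≃ₐ[F] E F => l (e i)) (hφS D hD).eq
        rw [h0, hη, map_smul]
      simp only [hf]
      split_ifs with h
      · rw [diag_pr h2 ⟨η, hη⟩, h1, map_smul]
      · exact h1
    have h3 : (D : E F →ₐ[F] E F).comp φ1 = φ1.comp (D : E F →ₐ[F] E F) := by
      apply hom_ext'
      intro i
      change D (φ1 (e i)) = φ1 (D (e i))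
      rw [hη, map_smul, hφ1e, hfD]
    change D * Φ = Φ * D
    ext x
    exact congrArg (fun l : E F →ₐ[F] E F => l x) h3
  have hs : Un (Φ * Φ) := hs0LN
  obtain ⟨ρ, hρ, hρun, hρc, hρS⟩ := exists_root h2 hs
  have hρΦ : Φ * ρ = ρ * Φ := hρc Φ (by rw [mul_assoc])
  have hρτ : tau * ρ = ρ * tau := hρc tau (by
    rw [mul_assoc, hΦτ, ← mul_assoc Φ tau, hΦτ, mul_assoc])
  have hρD : ∀ D ∈ S, Commute D ρ := fun D hD => hρc D ((hΦS D hD).mul_right (hΦS D hD)).eq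
  have hρI : ∀ x, ρ x - x ∈ I := root_all hρS (fun x => hs0I x)
  have hρF : ∀ x, ρ x - x ∈ (Fil 2 : Submodule F (E F)) := root_all hρS (fun x => hs0F x)
  -- the new involution
  set ψ : E F ≃ₐ[F] E F := Φ * ρ with hψ
  have hψψ : ψ * ψ = 1 := grp1 hρ hρΦ
  have hψφI : ∀ x, ψ x - φ x ∈ I := by
    intro x
    have h1 : ψ x - φ x = φ1 (ρ x - x) + (φ1 x - φ x) := by
      rw [hψ, mul_apply', hΦa, map_sub]; abel
    rw [h1]
    exact I.add_mem (hB _ (hρI x)) (hA x)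
  have hψφF : ∀ x, ψ x - φ x ∈ (Fil 2 : Submodule F (E F)) := by
    intro x
    have h1 : ψ x - φ x = φ1 (ρ x - x) + (φ1 x - φ x) := by
      rw [hψ, mul_apply', hΦa, map_sub]; abel
    rw [h1]
    exact Submodule.add_mem _ (hφ1Fil 2 _ (hρF x)) (hA2 x)
  have hψτ : ψ * tau = tau * ψ := by
    rw [hψ, mul_assoc, ← hρτ, ← mul_assoc, hΦτ, mul_assoc]
  have hψN : ∀ x ∈ Sub h2 N, ψ x ∈ Sub h2 N := by
    intro x hx
    have h1 : ρ x ∈ Sub h2 N := by
      apply root_stable hρS _ x hx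
      intro y hy
      change φ1 (φ1 y) ∈ _
      have h3 : φ1 y ∈ Sub h2 N := by rw [hφ1pr y hy]; exact pr_mem_Sub h2 N _
      rw [hφ1pr _ h3]; exact pr_mem_Sub h2 N _
    rw [hψ, mul_apply', hΦa, hφ1pr _ h1]
    exact pr_mem_Sub h2 N _
  have hψX : ∀ x ∈ Sub h2 N, φ x ∈ Sub h2 N → ψ x = φ x := by
    intro x hx hφx
    have h1 : φ1 x = φ x := by rw [hφ1pr x hx, (mem_Sub h2).mp hφx]
    have h3 : φ1 (φ x) = x := by rw [hφ1pr _ hφx, hφφ, (mem_Sub h2).mp hx]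
    have h4 : (Φ * Φ) x = x := by rw [mul_apply', hΦa, hΦa, h1, h3]
    have h5 : ρ x = x := root_fix hρS h4
    rw [hψ, mul_apply', hΦa, h5, h1]
  -- the product
  set v : E F ≃ₐ[F] E F := ψ * φ with hv
  have hvI : ∀ x, v x - x ∈ I := by
    intro x
    have := hψφI (φ x)
    rwa [hφφ] at this
  have hvF : ∀ x, v x - x ∈ (Fil 2 : Submodule F (E F)) := by
    intro x
    have := hψφF (φ x)
    rwa [hφφ] at this
  have hvun : Un v := LF h2 hYfg hYodd (h := (v : E F →ₐ[F] E F)) hvI (fun i => hvF _)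
  obtain ⟨γ, hγ, hγun, hγc, hγS⟩ := exists_root h2 hvun
  have hconj : φ * γ = γ * ψ := conj_root h2 hφ.sq hψψ hγ hγun hγc
  refine ⟨γ, ?_, root_all hγS hvF, ?_, ?_, fun D hD =>
    hγc D ((((hΦS D hD).mul_right (hρD D hD)).mul_right (hφS D hD)).eq)⟩
  · exact (hγc tau (grp2 hψτ hφ.comm)).symm
  · intro x hx
    have h1 : γ⁻¹ (φ (γ x)) = (γ⁻¹ * (φ * γ)) x := rfl
    rw [h1, hconj, ← mul_assoc, inv_mul_cancel, one_mul]
    exact hψN x hx
  · intro x hx hφx
    apply root_fix hγS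
    rw [hv, mul_apply', hψX (φ x) hφx (by rw [hφφ]; exact hx), hφφ]

lemma step' {ε : ℕ → F} {φ : E F ≃ₐ[F] E F} (hφ : Good ε φ)
    {S : Set (E F ≃ₐ[F] E F)} (hS : ∀ D ∈ S, Diag D) (hφS : ∀ D ∈ S, Commute D φ)
    {γ : E F ≃ₐ[F] E F} {N : ℕ} (hγ : St h2 φ γ N) (hγS : ∀ D ∈ S, Commute D γ) (k : ℕ) :
    ∃ (γ' : E F ≃ₐ[F] E F) (N' : ℕ), St h2 φ γ' N' ∧ N < N' ∧ (∀ x ∈ Sub h2 N, γ' x = γ x) ∧
      (∃ x ∈ Sub h2 N', γ' x = e k) ∧ ∀ D ∈ S, Commute D γ' := by
  have hφφ : ∀ x, φ (φ x) = x := fun x => by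
    have := congrArg (fun l : E F ≃ₐ[F] E F => l x) hφ.sq
    simpa using this
  have hcγ : Commute γ tau := hγ.comm
  have hcγ' : γ⁻¹ * tau = tau * γ⁻¹ := hcγ.inv_left
  set φk : E F ≃ₐ[F] E F := γ⁻¹ * φ * γ with hφk
  have hφka : ∀ x, φk x = γ⁻¹ (φ (γ x)) := fun x => rfl
  have hgood : Good ε φk := by
    refine ⟨?_, ?_, ?_⟩
    · rw [hφk]
      calc γ⁻¹ * φ * γ * (γ⁻¹ * φ * γ) = γ⁻¹ * (φ * φ) * γ := by group
        _ = 1 := by rw [hφ.sq]; group
    · have h1 : Commute φ tau := hφ.comm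
      exact ((hcγ.inv_left.mul_left h1).mul_left hcγ)
    · intro i
      rw [hφka]
      have h1 : γ (e i) - e i ∈ (Fil 2 : Submodule F (E F)) := hγ.fil _
      have h3 : φ (γ (e i)) - ε i • e i ∈ (Fil 2 : Submodule F (E F)) := by
        have : φ (γ (e i)) - ε i • e i = φ (γ (e i) - e i) + (φ (e i) - ε i • e i) := by
          rw [map_sub]; abel
        rw [this]
        exact Submodule.add_mem _ (comm_Fil h2 hφ.comm 2 h1) (hφ.lin i)
      have h4 : γ⁻¹ (φ (γ (e i))) - ε i • e i =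
          (γ⁻¹ (φ (γ (e i))) - φ (γ (e i))) + (φ (γ (e i)) - ε i • e i) := by abel
      rw [h4]
      exact Submodule.add_mem _ (inv_fil h2 hγ.comm hγ.fil _) h3
  obtain ⟨M1, hM1⟩ := exists_pr h2 (γ⁻¹ (e k))
  obtain ⟨M2, hM2⟩ := exists_pr h2 (φk (γ⁻¹ (e k)))
  set N' := max (N + 1) (max M1 M2) with hN'
  obtain ⟨δ, hδc, hδF, hδs, hδX, hδS⟩ := main_lemma' h2 hgood hS
    (fun D hD => ((hγS D hD).inv_right.mul_right (hφS D hD)).mul_right (hγS D hD)) N'
  have hNN' : N ≤ N' := (Nat.le_succ N).trans (le_max_left _ _)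
  refine ⟨γ * δ, N', ⟨?_, ?_, ?_⟩, lt_of_lt_of_le (Nat.lt_succ_self N) (le_max_left _ _), ?_, ?_,
    fun D hD => (hγS D hD).mul_right (hδS D hD)⟩
  · have : Commute δ tau := hδc
    exact hcγ.mul_left this
  · intro x
    have h1 : (γ * δ) x - x = (γ (δ x) - δ x) + (δ x - x) := by rw [mul_apply']; abel
    rw [h1]
    exact Submodule.add_mem _ (hγ.fil _) (hδF x)
  · intro x hx
    have h1 : (γ * δ)⁻¹ (φ ((γ * δ) x)) = δ⁻¹ (φk (δ x)) := by
      rw [mul_inv_rev]; rfl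
    rw [h1]
    exact hδs x hx
  · intro x hx
    rw [mul_apply', hδX x (Sub_mono h2 hNN' hx) (Sub_mono h2 hNN' (hγ.stab x hx))]
  · have h1 : γ⁻¹ (e k) ∈ Sub h2 N' :=
      Sub_mono h2 ((le_max_left M1 M2).trans (le_max_right _ _)) ((mem_Sub h2).mpr hM1)
    have h3 : φk (γ⁻¹ (e k)) ∈ Sub h2 N' :=
      Sub_mono h2 ((le_max_right M1 M2).trans (le_max_right _ _)) ((mem_Sub h2).mpr hM2)
    refine ⟨γ⁻¹ (e k), h1, ?_⟩
    rw [mul_apply', hδX _ h1 h3, apply_inv']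

include h2 in
theorem linearize' {ε : ℕ → F} (hε : ∀ i, ε i * ε i = 1) {φ : E F ≃ₐ[F] E F} (hφ : Good ε φ)
    {S : Set (E F ≃ₐ[F] E F)} (hS : ∀ D ∈ S, Diag D) (hφS : ∀ D ∈ S, Commute D φ) :
    ∃ Ψ : E F ≃ₐ[F] E F, (∀ i, φ (Ψ (e i)) = ε i • Ψ (e i)) ∧
      (∀ x, Ψ x - x ∈ (Fil 2 : Submodule F (E F))) ∧ ∀ D ∈ S, Commute D Ψ := by
  classical
  have hφφ : ∀ x, φ (φ x) = x := fun x => by
    have := congrArg (fun l : E F ≃ₐ[F] E F => l x) hφ.sq
    simpa using this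
  -- the sequence
  let T := {p : (E F ≃ₐ[F] E F) × ℕ // St h2 φ p.1 p.2 ∧ ∀ D ∈ S, Commute D p.1}
  have h0 : St h2 φ 1 0 := by
    refine ⟨by simp, fun x => by simp, ?_⟩
    intro x hx
    have hx' : pr h2 0 x = x := (mem_Sub h2).mp hx
    have h1 : ∀ y : E F, φ (pr h2 0 y) = pr h2 0 y := by
      intro y
      have : ((φ : E F →ₐ[F] E F)).comp (pr h2 0) = pr h2 0 := by
        apply hom_ext'
        intro i
        simp [pr_e_ge h2 (Nat.zero_le i)]
      exact congrArg (fun l : E F →ₐ[F] E F => l y) this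
    have h3 : (1 : E F ≃ₐ[F] E F)⁻¹ (φ ((1 : E F ≃ₐ[F] E F) x)) = φ x := by simp
    rw [h3, ← hx', h1]
    exact pr_mem_Sub h2 0 x
  have hstep : ∀ (k : ℕ) (t : T), ∃ t' : T, t.1.2 < t'.1.2 ∧ (∀ x ∈ Sub h2 t.1.2, t'.1.1 x = t.1.1 x) ∧
      ∃ x ∈ Sub h2 t'.1.2, t'.1.1 x = e k := by
    rintro k ⟨⟨γ, N⟩, hγ, hγS⟩
    obtain ⟨γ', N', h1, h3, h4, h5, h6⟩ := step' h2 hφ hS hφS hγ hγS k
    exact ⟨⟨⟨γ', N'⟩, h1, h6⟩, h3, h4, h5⟩
  choose nx hnx1 hnx2 hnx3 using hstep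
  let t : ℕ → T := fun k => Nat.rec ⟨⟨1, 0⟩, h0, fun D _ => Commute.one_right D⟩ (fun k t => nx k t) k
  have ht : ∀ k, t (k+1) = nx k (t k) := fun k => rfl
  set g : ℕ → (E F ≃ₐ[F] E F) := fun k => (t k).1.1 with hg
  set N : ℕ → ℕ := fun k => (t k).1.2 with hN
  have hst : ∀ k, St h2 φ (g k) (N k) := fun k => (t k).2.1
  have hgD : ∀ k, ∀ D ∈ S, Commute D (g k) := fun k => (t k).2.2
  have hNlt : ∀ k, N k < N (k+1) := fun k => by
    have := hnx1 k (t k)
    rwa [← ht] at this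
  have hNmono : StrictMono N := strictMono_nat_of_lt_succ hNlt
  have hNid : ∀ k, k ≤ N k := fun k => hNmono.le_apply
  have hgs : ∀ k, ∀ x ∈ Sub h2 (N k), g (k+1) x = g k x := fun k => by
    have := hnx2 k (t k)
    rwa [← ht] at this
  have hgle : ∀ k l, k ≤ l → ∀ x ∈ Sub h2 (N k), g l x = g k x := by
    intro k l hkl
    induction l, hkl using Nat.le_induction with
    | base => intro x _; rfl
    | succ l hl ih =>
      intro x hx
      rw [hgs l x (Sub_mono h2 (hNmono.monotone hl) hx), ih x hx]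
  have hge : ∀ k, ∃ x ∈ Sub h2 (N (k+1)), g (k+1) x = e k := fun k => by
    have := hnx3 k (t k)
    rwa [← ht] at this
  -- the limit
  set Γ0 : E F →ₐ[F] E F := L h2 (fun i => g (i+1) (e i))
    (fun i => tau_odd_of_comm (hst (i+1)).comm i) with hΓ0
  have hΓe : ∀ i, Γ0 (e i) = g (i+1) (e i) := fun i => by rw [hΓ0, L_e]
  have hΓ : ∀ k, ∀ x ∈ Sub h2 (N k), Γ0 x = g k x := by
    intro k x hx
    have : Γ0.comp (pr h2 (N k)) = ((g k : E F ≃ₐ[F] E F) : E F →ₐ[F] E F).comp (pr h2 (N k)) := by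
      apply hom_ext'
      intro i
      simp only [AlgHom.comp_apply, AlgHom.coe_coe]
      rcases lt_or_ge i (N k) with h | h
      · rw [pr_e_lt h2 h, hΓe]
        rcases le_total k (i+1) with h1 | h1
        · exact hgle k (i+1) h1 _ (e_mem_Sub h2 h)
        · exact (hgle (i+1) k h1 _ (e_mem_Sub h2 (lt_of_lt_of_le (Nat.lt_succ_self i) (hNid _)))).symm
      · rw [pr_e_ge h2 h]; simp
    have h3 := congrArg (fun l : E F →ₐ[F] E F => l x) this
    simp only [AlgHom.comp_apply, AlgHom.coe_coe] at h3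
    rwa [(mem_Sub h2).mp hx] at h3
  have hmem : ∀ x : E F, ∃ k, x ∈ Sub h2 (N k) := by
    intro x
    obtain ⟨M, hM⟩ := exists_pr h2 x
    exact ⟨M, Sub_mono h2 (hNid M) ((mem_Sub h2).mpr hM)⟩
  have hinj : Function.Injective Γ0 := by
    rw [injective_iff_map_eq_zero]
    intro x hx
    obtain ⟨k, hk⟩ := hmem x
    rw [hΓ k x hk] at hx
    exact (map_eq_zero_iff (g k) (g k).injective).mp hx
  have hsurj : Function.Surjective Γ0 := by
    intro x
    have hr : ∀ i, (e i : E F) ∈ Γ0.range := by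
      intro i
      obtain ⟨y, hy, hye⟩ := hge i
      exact ⟨y, by
        change Γ0 y = e i
        rw [hΓ (i+1) y hy, hye]⟩
    change x ∈ Γ0.range
    induction x using ExteriorAlgebra.induction with
    | algebraMap r => exact Subalgebra.algebraMap_mem _ r
    | ι m =>
      have := lin_ind (h := LinearMap.id) (P := Subalgebra.toSubmodule Γ0.range) (fun i => hr i) m
      exact this
    | mul a b ha hb => exact Subalgebra.mul_mem _ ha hb
    | add a b ha hb => exact Subalgebra.add_mem _ ha hb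
  set Γ : E F ≃ₐ[F] E F := AlgEquiv.ofBijective Γ0 ⟨hinj, hsurj⟩ with hΓdef
  have hΓa : ∀ x, Γ x = Γ0 x := fun x => rfl
  have hΓD : ∀ D ∈ S, Commute D Γ := by
    intro D hD
    obtain ⟨η, hη⟩ := hS D hD
    have h3 : (D : E F →ₐ[F] E F).comp Γ0 = Γ0.comp (D : E F →ₐ[F] E F) := by
      apply hom_ext'
      intro i
      change D (Γ0 (e i)) = Γ0 (D (e i))
      rw [hη, map_smul, hΓe]
      have h1 : D (g (i+1) (e i)) = g (i+1) (D (e i)) :=
        congrArg (fun l : E F ≃ₐ[F] E F => l (e i)) (hgD (i+1) D hD).eq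
      rw [h1, hη, map_smul]
    change D * Γ = Γ * D
    ext x
    exact congrArg (fun l : E F →ₐ[F] E F => l x) h3
  have hΓF : ∀ x, Γ x - x ∈ (Fil 2 : Submodule F (E F)) := by
    intro x
    obtain ⟨k, hk⟩ := hmem x
    rw [hΓa, hΓ k x hk]
    exact (hst k).fil x
  -- the new involution
  set φ' : E F ≃ₐ[F] E F := Γ⁻¹ * φ * Γ with hφ'
  have hφ'sq : φ' * φ' = 1 := by
    calc φ' * φ' = Γ⁻¹ * (φ * φ) * Γ := by rw [hφ']; group
      _ = 1 := by rw [hφ.sq]; group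
  have hφ'loc : ∀ k, ∀ x ∈ Sub h2 (N k), φ' x = (g k)⁻¹ (φ (g k x)) := by
    intro k x hx
    have h1 : φ' x = Γ⁻¹ (φ (Γ x)) := rfl
    rw [h1, hΓa, hΓ k x hx]
    have h3 : φ (g k x) = Γ ((g k)⁻¹ (φ (g k x))) := by
      rw [hΓa, hΓ k _ ((hst k).stab x hx), apply_inv']
    rw [h3, inv_apply', ← h3]
  have hφ'stab : ∀ k, ∀ x ∈ Sub h2 (N k), φ' x ∈ Sub h2 (N k) := by
    intro k x hx
    rw [hφ'loc k x hx]
    exact (hst k).stab x hx
  -- the diagonal involution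
  have hεe : ∀ i, tau (ε i • (e i : E F)) = - (ε i • e i) := fun i => by simp
  set φ0 : E F →ₐ[F] E F := L h2 (fun i => ε i • e i) hεe with hφ0
  have hφ0e : ∀ i, φ0 (e i) = ε i • e i := fun i => by rw [hφ0, L_e]
  have hφ0sq : φ0.comp φ0 = AlgHom.id F (E F) := by
    apply hom_ext'
    intro i
    simp only [AlgHom.comp_apply, hφ0e, map_smul, smul_smul, hε, one_smul, AlgHom.id_apply]
  set Φ0 : E F ≃ₐ[F] E F := AlgEquiv.ofAlgHom φ0 φ0 hφ0sq hφ0sq with hΦ0
  have hΦ0a : ∀ x, Φ0 x = φ0 x := fun x => rfl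
  have hΦ0sq : Φ0 * Φ0 = 1 := by
    ext x
    exact congrArg (fun l : E F →ₐ[F] E F => l x) hφ0sq
  have hφ0Sub : ∀ M, ∀ x ∈ Sub h2 M, φ0 x ∈ Sub h2 M := by
    intro M x hx
    have : (pr h2 M).comp (φ0.comp (pr h2 M)) = φ0.comp (pr h2 M) := by
      apply hom_ext'
      intro i
      simp only [AlgHom.comp_apply]
      rcases lt_or_ge i M with h | h
      · rw [pr_e_lt h2 h, hφ0e, map_smul, pr_e_lt h2 h]
      · rw [pr_e_ge h2 h]; simp
    have h3 := congrArg (fun l : E F →ₐ[F] E F => l x) this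
    simp only [AlgHom.comp_apply] at h3
    rw [(mem_Sub h2).mp hx] at h3
    exact (mem_Sub h2).mpr h3
  have hφ'D : ∀ D ∈ S, Commute D φ' := fun D hD =>
    ((hΓD D hD).inv_right.mul_right (hφS D hD)).mul_right (hΓD D hD)
  have hΦ0D : ∀ D ∈ S, Commute D Φ0 := by
    intro D hD
    obtain ⟨η, hη⟩ := hS D hD
    have h3 : (D : E F →ₐ[F] E F).comp φ0 = φ0.comp (D : E F →ₐ[F] E F) := by
      apply hom_ext'
      intro i
      change D (φ0 (e i)) = φ0 (D (e i))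
      rw [hη, map_smul, hφ0e, map_smul, hη, smul_smul, smul_smul, mul_comm]
    change D * Φ0 = Φ0 * D
    ext x
    exact congrArg (fun l : E F →ₐ[F] E F => l x) h3
  set v : E F ≃ₐ[F] E F := Φ0 * φ' with hv
  have hvF : U1 (v : E F →ₐ[F] E F) := by
    intro i
    change v (e i) - e i ∈ _
    rw [hv, mul_apply', hΦ0a]
    have hei : (e i : E F) ∈ Sub h2 (N (i+1)) :=
      e_mem_Sub h2 (lt_of_lt_of_le (Nat.lt_succ_self i) (hNid _))
    have h1 : φ' (e i) - ε i • e i ∈ (Fil 2 : Submodule F (E F)) := by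
      rw [hφ'loc (i+1) _ hei]
      have k1 : g (i+1) (e i) - e i ∈ (Fil 2 : Submodule F (E F)) := (hst (i+1)).fil _
      have k3 : φ (g (i+1) (e i)) - ε i • e i ∈ (Fil 2 : Submodule F (E F)) := by
        have : φ (g (i+1) (e i)) - ε i • e i = φ (g (i+1) (e i) - e i) + (φ (e i) - ε i • e i) := by
          rw [map_sub]; abel
        rw [this]
        exact Submodule.add_mem _ (comm_Fil h2 hφ.comm 2 k1) (hφ.lin i)
      have k4 : (g (i+1))⁻¹ (φ (g (i+1) (e i))) - ε i • e i =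
          ((g (i+1))⁻¹ (φ (g (i+1) (e i))) - φ (g (i+1) (e i))) + (φ (g (i+1) (e i)) - ε i • e i) := by
        abel
      rw [k4]
      exact Submodule.add_mem _ (inv_fil h2 (hst (i+1)).comm (hst (i+1)).fil _) k3
    have h3 : φ0 (φ' (e i)) - e i = φ0 (φ' (e i) - ε i • e i) := by
      rw [map_sub, map_smul, hφ0e, smul_smul, hε, one_smul]
    rw [h3]
    apply hom_Fil h2 _ 2 h1
    intro j
    rw [hφ0e]
    exact Submodule.smul_mem _ _ (e_mem_Fil j)
  have hvun : Un v := by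
    intro a
    obtain ⟨k, hk⟩ := hmem a
    obtain ⟨D, hD⟩ := separated (Sub_fg h2 (N k) (F := F))
    have key : ∀ j : ℕ, ((lin v - 1) ^ j) a ∈ Sub h2 (N k) ∧
        ((lin v - 1) ^ j) a ∈ (Fil j : Submodule F (E F)) := by
      intro j
      induction j with
      | zero => exact ⟨by simpa using hk, mem_Fil_zero _⟩
      | succ j ih =>
        rw [pow_succ', Module.End.mul_apply]
        constructor
        · refine Submodule.sub_mem _ ?_ ih.1
          change φ0 (φ' _) ∈ _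
          exact hφ0Sub _ _ (hφ'stab k _ ih.1)
        · exact U1_Fil h2 hvF j ih.2
    exact ⟨D, hD _ (key D).1 (key D).2⟩
  obtain ⟨r, hr, hrun, hrc, hrS⟩ := exists_root h2 hvun
  have hconj : φ' * r = r * Φ0 := conj_root h2 hφ'sq hΦ0sq hr hrun hrc
  have hrD : ∀ D ∈ S, Commute D r := fun D hD =>
    hrc D ((hΦ0D D hD).mul_right (hφ'D D hD)).eq
  have hrF : ∀ x, r x - x ∈ (Fil 2 : Submodule F (E F)) := root_all hrS
    (diff_Fil h2 (f := (v : E F →ₐ[F] E F)) (g := AlgHom.id F (E F)) hvF)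
  refine ⟨Γ * r, fun i => ?_, fun x => ?_, fun D hD => (hΓD D hD).mul_right (hrD D hD)⟩
  swap
  · have h1 : (Γ * r) x - x = (Γ (r x) - r x) + (r x - x) := by rw [mul_apply']; abel
    rw [h1]
    exact Submodule.add_mem _ (hΓF _) (hrF x)
  have h1 : φ * (Γ * r) = (Γ * r) * Φ0 := by
    have : φ * Γ = Γ * φ' := by rw [hφ']; group
    rw [← mul_assoc, this, mul_assoc, hconj, mul_assoc]
  have h3 := congrArg (fun l : E F ≃ₐ[F] E F => l (e i)) h1
  simp only [mul_apply', hΦ0a, hφ0e, map_smul] at h3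
  exact h3

end Pool.Agent.Y207.GR
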