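import Pool.Agent.Y207.GR.Simul

/-!
# Gradings and commuting involutions
-/

set_option autoImplicit false

open ExteriorAlgebra

noncomputable section

namespace Pool.Agent.Y207.GR

open Pool.Agent.H89R3.Gr

section grading

variable {F : Type*} [Field F] {V : Type*} [AddCommGroup V] [Module F V]
  {G : Type*} [DecidableEq G]

/-- A linear map which is the scalar `s g` on `A g`. -/
lemma exists_scalar (A : G → Submodule F V) (hA : DirectSum.IsInternal A) (s : G → F) :
    ∃ f : V →ₗ[F] V, ∀ g, ∀ x ∈ A g, f x = s g • x := by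
  classical
  let eq := LinearEquiv.ofBijective (DirectSum.coeLinearMap A) hA
  let f : V →ₗ[F] V := (DirectSum.toModule F G V (fun g => s g • (A g).subtype)) ∘ₗ
    (eq.symm : V →ₗ[F] DirectSum G fun g => A g)
  refine ⟨f, fun g x hx => ?_⟩
  have h1 : eq.symm x = DirectSum.lof F G (fun g => A g) g ⟨x, hx⟩ := by
    rw [LinearEquiv.symm_apply_eq]
    change x = DirectSum.coeLinearMap A (DirectSum.lof F G (fun g => A g) g ⟨x, hx⟩)
    rw [DirectSum.coeLinearMap_lof]
  change DirectSum.toModule F G V (fun g => s g • (A g).subtype) (eq.symm x) = _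
  rw [h1, DirectSum.toModule_lof]
  rfl

lemma grad_ind {A : G → Submodule F V} (hA : DirectSum.IsInternal A) {P : V → Prop}
    (h1 : ∀ g, ∀ x ∈ A g, P x) (h0 : P 0) (hadd : ∀ x y, P x → P y → P (x + y)) (x : V) : P x := by
  have hx : x ∈ ⨆ g, A g := by
    rw [hA.submodule_iSup_eq_top]
    exact Submodule.mem_top
  exact Submodule.iSup_induction A (motive := P) hx h1 h0 hadd

lemma grad_ext {A : G → Submodule F V} (hA : DirectSum.IsInternal A) {f f' : V →ₗ[F] V}
    (h : ∀ g, ∀ x ∈ A g, f x = f' x) : f = f' := by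
  apply LinearMap.ext
  intro x
  refine grad_ind hA (P := fun x => f x = f' x) h (by simp) (fun x y hx hy => ?_) x
  rw [map_add, map_add, hx, hy]

lemma isInternal_map {A : G → Submodule F V} (hA : DirectSum.IsInternal A)
    {W : Type*} [AddCommGroup W] [Module F W] (f : V ≃ₗ[F] W) :
    DirectSum.IsInternal fun g => (A g).map (f : V →ₗ[F] W) := by
  rw [DirectSum.isInternal_submodule_iff_iSupIndep_and_iSup_eq_top]
  constructor
  · exact (iSupIndep_map_orderIso_iff (Submodule.orderIsoMapComap f)).2 hA.submodule_iSupIndep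
  · rw [← Submodule.map_iSup, hA.submodule_iSup_eq_top, Submodule.map_top]
    exact LinearMap.range_eq_top.2 f.surjective

end grading

/-- The sign of an element of `ℤ/2`. -/
def sg {F : Type*} [Field F] (a : ZMod 2) : F := if a = 0 then 1 else -1

lemma z2 (a : ZMod 2) : a = 0 ∨ a = 1 := by
  revert a
  decide

lemma sg0 {F : Type*} [Field F] : (sg 0 : F) = 1 := if_pos rfl

lemma sg1 {F : Type*} [Field F] : (sg 1 : F) = -1 := if_neg (by decide)

lemma sg_add {F : Type*} [Field F] (a b : ZMod 2) : (sg (a + b) : F) = sg a * sg b := by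
  have h11 : (1 : ZMod 2) + 1 = 0 := by decide
  rcases z2 a with rfl | rfl <;> rcases z2 b with rfl | rfl <;>
    simp [sg0, sg1, h11]

lemma sg_sq {F : Type*} [Field F] (a : ZMod 2) : (sg a : F) * sg a = 1 := by
  rcases z2 a with rfl | rfl <;> simp [sg0, sg1]

lemma sg_inj {F : Type*} [Field F] (h2 : (2:F) ≠ 0) {a b : ZMod 2} (h : (sg a : F) = sg b) :
    a = b := by
  have h3 : (1:F) ≠ -1 := by
    intro h
    apply h2
    have : (1:F) + 1 = 0 := by nth_rewrite 2 [h]; ring
    rw [← this]; norm_num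
  rcases z2 a with rfl | rfl <;> rcases z2 b with rfl | rfl
  · rfl
  · rw [sg0, sg1] at h
    exact absurd h h3
  · rw [sg0, sg1] at h
    exact absurd h.symm h3
  · rfl

section main

variable {F : Type*} [Field F] {L : Type*} [AddCommGroup L] [Module F L]
  {G : Type*} [AddCommGroup G] [DecidableEq G]
  (A : G → Submodule F (ExteriorAlgebra F L)) (hA : DirectSum.IsInternal A)
  (hmul : ∀ g h : G, ∀ x ∈ A g, ∀ y ∈ A h, x * y ∈ A (g + h))

include hA hmul in
/-- The involution given by a character. -/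
lemma exists_inv (χ : G → ZMod 2) (hχ : ∀ g h, χ (g + h) = χ g + χ h) :
    ∃ φ : ExteriorAlgebra F L ≃ₐ[F] ExteriorAlgebra F L, ∀ g, ∀ x ∈ A g, φ x = (sg (χ g) : F) • x := by
  obtain ⟨f, hf⟩ := exists_scalar A hA (fun g => (sg (χ g) : F))
  have hff : ∀ x, f (f x) = x := by
    intro x
    refine grad_ind hA (P := fun x => f (f x) = x) (fun g x hx => ?_) (by simp)
      (fun x y hx hy => ?_) x
    · rw [hf g x hx, map_smul, hf g x hx, smul_smul, sg_sq, one_smul]
    · rw [map_add, map_add, hx, hy]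
  have hm : ∀ x y, f (x * y) = f x * f y := by
    intro x y
    refine grad_ind hA (P := fun x => f (x * y) = f x * f y) (fun g x hx => ?_) (by simp)
      (fun a b ha hb => ?_) x
    · refine grad_ind hA (P := fun y => f (x * y) = f x * f y) (fun h y hy => ?_) (by simp)
        (fun a b ha hb => ?_) y
      · rw [hf _ _ (hmul g h x hx y hy), hf g x hx, hf h y hy, hχ, sg_add, smul_mul_smul_comm]
      · rw [mul_add, map_add, map_add, ha, hb, mul_add]
    · rw [add_mul, map_add, map_add, ha, hb, add_mul]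
  have h1 : f 1 = 1 := by
    have h3 : f 1 * f (f 1) = f (f 1) := by rw [← hm, one_mul]
    rw [hff, mul_one] at h3
    exact h3
  let φ0 : ExteriorAlgebra F L →ₐ[F] ExteriorAlgebra F L := AlgHom.ofLinearMap f h1 hm
  have hφ0 : φ0.comp φ0 = AlgHom.id F _ := by
    apply AlgHom.ext
    intro x
    exact hff x
  exact ⟨AlgEquiv.ofAlgHom φ0 φ0 hφ0 hφ0, hf⟩

include hA in
/-- Common eigenvectors of separating characters are homogeneous. -/
lemma homog_of_eigen [Finite G] (h2 : (2:F) ≠ 0) {r : ℕ} (χ : Fin r → G → ZMod 2)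
    (hsep : ∀ g h, (∀ j, χ j g = χ j h) → g = h)
    (φ : Fin r → ExteriorAlgebra F L ≃ₐ[F] ExteriorAlgebra F L)
    (hφ : ∀ j g, ∀ x ∈ A g, φ j x = (sg (χ j g) : F) • x) {y : ExteriorAlgebra F L} {ε : Fin r → F}
    (hy : ∀ j, φ j y = ε j • y) : ∃ g, y ∈ A g := by
  classical
  haveI := Fintype.ofFinite G
  choose p hp using fun h : G => exists_scalar A hA (fun g => if g = h then (1:F) else 0)
  have hpA : ∀ h x, p h x ∈ A h := by
    intro h x
    refine grad_ind hA (P := fun x => p h x ∈ A h) (fun g x hx => ?_) (by simp)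
      (fun a b ha hb => ?_) x
    · rw [hp h g x hx]
      by_cases hg : g = h
      · subst hg; simpa using hx
      · simp [hg]
    · rw [map_add]; exact (A h).add_mem ha hb
  have hsum : ∀ x, ∑ h, p h x = x := by
    intro x
    refine grad_ind hA (P := fun x => ∑ h, p h x = x) (fun g x hx => ?_) (by simp)
      (fun a b ha hb => ?_) x
    · simp only [hp _ g x hx]
      simp [Finset.sum_ite_eq]
    · simp only [map_add]
      rw [Finset.sum_add_distrib, ha, hb]
  have hcom : ∀ j h x, p h (φ j x) = (sg (χ j h) : F) • p h x := by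
    intro j h x
    refine grad_ind hA (P := fun x => p h (φ j x) = (sg (χ j h) : F) • p h x)
      (fun g x hx => ?_) (by simp) (fun a b ha hb => ?_) x
    · rw [hφ j g x hx, map_smul, hp h g x hx]
      by_cases hg : g = h
      · subst hg; simp
      · simp [hg]
    · rw [map_add, map_add, map_add, ha, hb, smul_add]
  have key : ∀ h, p h y ≠ 0 → ∀ j, (sg (χ j h) : F) = ε j := by
    intro h hne j
    have h1 := hcom j h y
    rw [hy, map_smul] at h1
    by_contra hcon
    apply hne
    have h3 : ((sg (χ j h) : F) - ε j) • p h y = 0 := by rw [sub_smul, ← h1, sub_self]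
    rcases smul_eq_zero.1 h3 with h4 | h4
    · exact absurd (sub_eq_zero.1 h4) hcon
    · exact h4
  by_cases hz : ∀ h, p h y = 0
  · refine ⟨0, ?_⟩
    rw [← hsum y, Finset.sum_eq_zero fun h _ => hz h]
    exact (A 0).zero_mem
  · push Not at hz
    obtain ⟨h, hh⟩ := hz
    refine ⟨h, ?_⟩
    have h5 : y = p h y := by
      conv_lhs => rw [← hsum y]
      refine Finset.sum_eq_single h (fun h' _ hne => ?_) (fun h' => absurd (Finset.mem_univ _) h')
      by_contra hcon
      exact hne (hsep _ _ fun j => sg_inj h2 ((key h' hcon j).trans (key h hh j).symm))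
    rw [h5]
    exact hpA h y

end main

/-- Every grading by a finite elementary abelian `2`-group has a system of homogeneous generators
which is the image of the given one. -/
theorem grading {F : Type*} [Field F] (h2 : (2:F) ≠ 0) {L : Type*} [AddCommGroup L] [Module F L]
    (b : Module.Basis ℕ F L) {G : Type*} [AddCommGroup G] [DecidableEq G] [Finite G]
    (hG : ∀ g : G, g + g = 0) (A : G → Submodule F (ExteriorAlgebra F L))
    (hA : DirectSum.IsInternal A) (hmul : ∀ g h : G, ∀ x ∈ A g, ∀ y ∈ A h, x * y ∈ A (g + h)) :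
    ∃ Θ : ExteriorAlgebra F L ≃ₐ[F] ExteriorAlgebra F L, ∀ n, ∃ g, Θ (ι F (b n)) ∈ A g := by
  classical
  letI : Module (ZMod 2) G := AddCommGroup.zmodModule (n := 2) (fun g => by rw [two_nsmul]; exact hG g)
  let bG := Module.finBasis (ZMod 2) G
  let χ : Fin (Module.finrank (ZMod 2) G) → G → ZMod 2 := fun j g => bG.repr g j
  have hχ : ∀ j g h, χ j (g + h) = χ j g + χ j h := fun j g h => by simp [χ]
  have hsep : ∀ g h, (∀ j, χ j g = χ j h) → g = h := fun g h hh =>
    bG.repr.injective (Finsupp.ext hh)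
  choose φ hφ using fun j => exists_inv A hA hmul (χ j) (hχ j)
  have hφsq : ∀ j x, φ j (φ j x) = x := by
    intro j x
    refine grad_ind hA (P := fun x => φ j (φ j x) = x) (fun g x hx => ?_) (by simp)
      (fun a b ha hb => ?_) x
    · rw [hφ j g x hx, map_smul, hφ j g x hx, smul_smul, sg_sq, one_smul]
    · rw [map_add, map_add, ha, hb]
  have hφc : ∀ i j x, φ i (φ j x) = φ j (φ i x) := by
    intro i j x
    refine grad_ind hA (P := fun x => φ i (φ j x) = φ j (φ i x)) (fun g x hx => ?_) (by simp)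
      (fun a b ha hb => ?_) x
    · rw [hφ j g x hx, map_smul, hφ i g x hx, map_smul, hφ j g x hx, smul_comm]
    · simp only [map_add, ha, hb]
  let β : ExteriorAlgebra F L ≃ₐ[F] E F := mapE b.repr
  have hβ : ∀ n, β (ExteriorAlgebra.ι F (b n)) = e n := by
    intro n
    change mapE b.repr (ExteriorAlgebra.ι F (b n)) = e n
    rw [mapE_ι, Module.Basis.repr_self]; rfl
  let φE : Fin (Module.finrank (ZMod 2) G) → E F ≃ₐ[F] E F := fun j => (β.symm.trans (φ j)).trans β
  have hφE : ∀ j x, φE j x = β (φ j (β.symm x)) := fun j x => rfl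
  obtain ⟨Ψ, ε, hε, hΨ⟩ := simul h2 φE
    (fun j => by
      apply AlgEquiv.ext
      intro x
      change φE j (φE j x) = x
      rw [hφE, hφE, AlgEquiv.symm_apply_apply, hφsq, AlgEquiv.apply_symm_apply])
    (fun i j => by
      change φE i * φE j = φE j * φE i
      apply AlgEquiv.ext
      intro x
      change φE i (φE j x) = φE j (φE i x)
      rw [hφE, hφE, hφE, hφE, AlgEquiv.symm_apply_apply, AlgEquiv.symm_apply_apply, hφc])
  let Θ : ExteriorAlgebra F L ≃ₐ[F] ExteriorAlgebra F L := (β.trans Ψ).trans β.symm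
  have hΘ : ∀ j n, φ j (Θ (ExteriorAlgebra.ι F (b n))) = ε j n • Θ (ExteriorAlgebra.ι F (b n)) := by
    intro j n
    have e1 : Θ (ExteriorAlgebra.ι F (b n)) = β.symm (Ψ (e n)) := by
      change β.symm (Ψ (β (ExteriorAlgebra.ι F (b n)))) = _
      rw [hβ]
    have h1 := congrArg β.symm (hΨ j n)
    rw [hφE, AlgEquiv.symm_apply_apply, map_smul] at h1
    rw [e1, h1]
  exact ⟨Θ, fun n => homog_of_eigen A hA h2 χ hsep φ hφ (fun j => hΘ j n)⟩

end Pool.Agent.Y207.GR
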