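import Pool.Agent.Y207.GR.Grad

/-!
# The linear part of an automorphism of the exterior algebra
-/

set_option autoImplicit false

open ExteriorAlgebra

noncomputable section

namespace Pool.Agent.Y207.GR

variable {F : Type*} [Field F] {L : Type*} [AddCommGroup L] [Module F L]

/-- The component of degree one. -/
def deg1 : ExteriorAlgebra F L →ₗ[F] L := ExteriorAlgebra.ιInv

@[simp] lemma deg1_ι (v : L) : deg1 (ι F v) = v := ExteriorAlgebra.ι_leftInverse v

/-- The linear part of an algebra homomorphism. -/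
def lpart (f : ExteriorAlgebra F L →ₐ[F] ExteriorAlgebra F L) : L →ₗ[F] L :=
  deg1 ∘ₗ f.toLinearMap ∘ₗ ι F

lemma lpart_deg1 (f : ExteriorAlgebra F L →ₐ[F] ExteriorAlgebra F L) (x : ExteriorAlgebra F L) :
    deg1 (f x) = lpart f (deg1 x) := by
  letI : Module Fᵐᵒᵖ L := Module.compHom _ ((RingHom.id F).fromOpposite mul_comm)
  haveI : IsCentralScalar F L := ⟨fun r m => rfl⟩
  have h1 : (toTrivSqZeroExt : ExteriorAlgebra F L →ₐ[F] TrivSqZeroExt F L).comp f =
      (TrivSqZeroExt.map (lpart f)).comp toTrivSqZeroExt := by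
    apply ExteriorAlgebra.hom_ext
    apply LinearMap.ext
    intro v
    change (toTrivSqZeroExt (f (ι F v)) : TrivSqZeroExt F L) =
      TrivSqZeroExt.map (lpart f) (toTrivSqZeroExt (ι F v))
    rw [toTrivSqZeroExt_ι, TrivSqZeroExt.map_inr]
    apply TrivSqZeroExt.ext
    · rw [TrivSqZeroExt.fst_inr]
      have h3 : (toTrivSqZeroExt (f (ι F v)) : TrivSqZeroExt F L) *
          toTrivSqZeroExt (f (ι F v)) = 0 := by
        rw [← map_mul, ← map_mul, ι_sq_zero, map_zero, map_zero]
      have h4 := congrArg TrivSqZeroExt.fst h3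
      rw [TrivSqZeroExt.fst_mul, TrivSqZeroExt.fst_zero] at h4
      exact mul_self_eq_zero.1 h4
    · rw [TrivSqZeroExt.snd_inr]
      rfl
  have h5 := congrArg (fun l : ExteriorAlgebra F L →ₐ[F] TrivSqZeroExt F L => (l x).snd) h1
  have h6 : (TrivSqZeroExt.map (lpart f) (toTrivSqZeroExt x)).snd =
      lpart f (toTrivSqZeroExt x : TrivSqZeroExt F L).snd := TrivSqZeroExt.snd_map _ _
  exact h5.trans h6


lemma lpart_ι (f : ExteriorAlgebra F L →ₐ[F] ExteriorAlgebra F L) (v : L) :
    lpart f v = deg1 (f (ι F v)) := rfl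

open Pool.Agent.H89R3.Gr

section cls

variable {G : Type*} [AddCommGroup G] [DecidableEq G]

/-- Characters separate the elements of a finite elementary abelian `2`-group. -/
lemma exists_chars {G : Type*} [AddCommGroup G] [Finite G] (hG : ∀ g : G, g + g = 0) :
    ∃ (r : ℕ) (χ : Fin r → G → ZMod 2), (∀ j g h, χ j (g + h) = χ j g + χ j h) ∧
      ∀ g h, (∀ j, χ j g = χ j h) → g = h := by
  classical
  letI : Module (ZMod 2) G := AddCommGroup.zmodModule (n := 2) (fun g => by rw [two_nsmul]; exact hG g)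
  let bG := Module.finBasis (ZMod 2) G
  exact ⟨_, fun j g => bG.repr g j, fun j g h => by simp,
    fun g h hh => bG.repr.injective (Finsupp.ext hh)⟩

variable (b : Module.Basis ℕ F L) {B : G → Submodule F (ExteriorAlgebra F L)}
  (hB : DirectSum.IsInternal B) (hBm : ∀ g h : G, ∀ x ∈ B g, ∀ y ∈ B h, x * y ∈ B (g + h))
  (hBh : ∀ n : ℕ, ∃ g, ι F (b n) ∈ B g)

include hB hBm hBh in
lemma deg1_mem (h2 : (2:F) ≠ 0) [Finite G] (hG : ∀ g : G, g + g = 0) {g : G}
    {x : ExteriorAlgebra F L} (hx : x ∈ B g) :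
    deg1 x ∈ Submodule.span F (b '' {m | ι F (b m) ∈ B g}) := by
  classical
  obtain ⟨r, χ, hχ, hsep⟩ := exists_chars hG
  choose φ hφ using fun j => exists_inv B hB hBm (χ j) (hχ j)
  rw [b.mem_span_image]
  intro m hm
  rw [Finset.mem_coe, Finsupp.mem_support_iff] at hm
  obtain ⟨gm, hgm⟩ := hBh m
  have hgg : gm = g := by
    apply hsep
    intro j
    choose d hd using hBh
    set T := lpart (φ j : ExteriorAlgebra F L →ₐ[F] ExteriorAlgebra F L) with hT
    have hTb : ∀ n, T (b n) = (sg (χ j (d n)) : F) • b n := by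
      intro n
      rw [hT, lpart_ι]
      change deg1 (φ j (ι F (b n))) = _
      rw [hφ j (d n) _ (hd n), map_smul, deg1_ι]
    have hTm : T (b m) = (sg (χ j gm) : F) • b m := by
      rw [hT, lpart_ι]
      change deg1 (φ j (ι F (b m))) = _
      rw [hφ j gm _ hgm, map_smul, deg1_ι]
    have h1 : T (deg1 x) = (sg (χ j g) : F) • deg1 x := by
      rw [hT, ← lpart_deg1]
      change deg1 (φ j x) = _
      rw [hφ j g x hx, map_smul]
    have h3 : ∀ c : L, b.repr (T c) m = (sg (χ j gm) : F) * b.repr c m := by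
      intro c
      have h4 : (Finsupp.lapply m ∘ₗ (b.repr : L →ₗ[F] ℕ →₀ F) ∘ₗ T) =
          (sg (χ j gm) : F) • (Finsupp.lapply m ∘ₗ (b.repr : L →ₗ[F] ℕ →₀ F)) := by
        apply b.ext
        intro n
        change b.repr (T (b n)) m = (sg (χ j gm) : F) • b.repr (b n) m
        by_cases hnm : n = m
        · subst hnm
          rw [hTm, map_smul]
          rfl
        · rw [hTb, map_smul, Finsupp.smul_apply, Module.Basis.repr_self,
            Finsupp.single_eq_of_ne (Ne.symm hnm), smul_zero, smul_zero]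
      exact congrArg (fun l : L →ₗ[F] F => l c) h4
    have h5 := h3 (deg1 x)
    rw [h1, map_smul, Finsupp.smul_apply, smul_eq_mul] at h5
    exact sg_inj h2 (mul_right_cancel₀ hm h5.symm)
  change ι F (b m) ∈ B g
  rw [← hgg]
  exact hgm

include hB hBm hBh in
lemma card_le (h2 : (2:F) ≠ 0) [Finite G] (hG : ∀ g : G, g + g = 0)
    {B' : G → Submodule F (ExteriorAlgebra F L)}
    (f : ExteriorAlgebra F L ≃ₐ[F] ExteriorAlgebra F L) {g : G}
    (hf : ∀ x ∈ B' g, f x ∈ B g) :
    Cardinal.mk {n // ι F (b n) ∈ B' g} ≤ Cardinal.mk {n // ι F (b n) ∈ B g} := by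
  have hli : ∀ S : Set ℕ, LinearIndependent F fun m : S => b m := fun S =>
    b.linearIndependent.comp _ Subtype.val_injective
  have hr : ∀ S : Set ℕ, Set.range (fun m : S => b m) = b '' S := fun S => by
    rw [← Set.image_eq_range]
  have hle : Submodule.span F (b '' {m | ι F (b m) ∈ B' g}) ≤
      (Submodule.span F (b '' {m | ι F (b m) ∈ B g})).comap
        (lpart (f : ExteriorAlgebra F L →ₐ[F] ExteriorAlgebra F L)) := by
    rw [Submodule.span_le]
    rintro _ ⟨m, hm, rfl⟩
    rw [SetLike.mem_coe, Submodule.mem_comap, lpart_ι]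
    exact deg1_mem b hB hBm hBh h2 hG (hf _ hm)
  have hinj : Function.Injective (lpart (f : ExteriorAlgebra F L →ₐ[F] ExteriorAlgebra F L)) := by
    apply Function.LeftInverse.injective
      (g := lpart (f.symm : ExteriorAlgebra F L →ₐ[F] ExteriorAlgebra F L))
    intro v
    rw [lpart_ι (f : ExteriorAlgebra F L →ₐ[F] ExteriorAlgebra F L), ← lpart_deg1]
    change deg1 (f.symm (f (ι F v))) = v
    rw [AlgEquiv.symm_apply_apply, deg1_ι]
  let T : Submodule.span F (b '' {m | ι F (b m) ∈ B' g}) →ₗ[F]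
      Submodule.span F (b '' {m | ι F (b m) ∈ B g}) :=
    (lpart (f : ExteriorAlgebra F L →ₐ[F] ExteriorAlgebra F L)).restrict hle
  have hT : Function.Injective T := by
    intro x y hxy
    apply Subtype.ext
    exact hinj (congrArg Subtype.val hxy)
  have hrk := LinearMap.rank_le_of_injective T hT
  have key : ∀ S : Set ℕ, Cardinal.lift.{_} (Cardinal.mk S) =
      Module.rank F (Submodule.span F (b '' S)) := by
    intro S
    have h1 := (Module.Basis.span (hli S)).mk_eq_rank
    rw [hr S] at h1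
    simpa using h1
  have h7 := key {m | ι F (b m) ∈ B' g}
  have h8 := key {m | ι F (b m) ∈ B g}
  rw [← h7, ← h8, Cardinal.lift_le] at hrk
  exact hrk


include hB hBm in
/-- An eigenvector for all characters lies in the corresponding component. -/
lemma mem_of_eigen (h2 : (2:F) ≠ 0) [Finite G] {r : ℕ} {χ : Fin r → G → ZMod 2}
    (hsep : ∀ g h, (∀ j, χ j g = χ j h) → g = h)
    {φ : Fin r → ExteriorAlgebra F L ≃ₐ[F] ExteriorAlgebra F L}
    (hφ : ∀ j g, ∀ x ∈ B g, φ j x = (sg (χ j g) : F) • x) {y : ExteriorAlgebra F L} {g : G}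
    (hy : ∀ j, φ j y = (sg (χ j g) : F) • y) : y ∈ B g := by
  obtain ⟨h, hh⟩ := homog_of_eigen B hB h2 χ hsep φ hφ hy
  by_cases h0 : y = 0
  · rw [h0]; exact (B g).zero_mem
  · have : h = g := by
      apply hsep
      intro j
      have h1 := (hφ j h y hh).symm.trans (hy j)
      have h3 : ((sg (χ j h) : F) - sg (χ j g)) • y = 0 := by rw [sub_smul, h1, sub_self]
      rcases smul_eq_zero.1 h3 with h4 | h4
      · exact sg_inj h2 (sub_eq_zero.1 h4)
      · exact absurd h4 h0
    rw [← this]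
    exact hh

include hB hBm hBh in
lemma iso_of_card (h2 : (2:F) ≠ 0) [Finite G] (hG : ∀ g : G, g + g = 0)
    {B' : G → Submodule F (ExteriorAlgebra F L)} (hB' : DirectSum.IsInternal B')
    (hBm' : ∀ g h : G, ∀ x ∈ B' g, ∀ y ∈ B' h, x * y ∈ B' (g + h))
    (hBh' : ∀ n : ℕ, ∃ g, ι F (b n) ∈ B' g)
    (hc : ∀ g, Cardinal.mk {n // ι F (b n) ∈ B g} = Cardinal.mk {n // ι F (b n) ∈ B' g}) :
    ∃ f : ExteriorAlgebra F L ≃ₐ[F] ExteriorAlgebra F L, ∀ g x, x ∈ B g ↔ f x ∈ B' g := by
  classical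
  choose d hd using hBh
  choose d' hd' using hBh'
  have hι : ∀ n, ι F (b n) ≠ 0 := fun n h => b.ne_zero n ((ι_eq_zero_iff _).1 h)
  have huni : ∀ {C : G → Submodule F (ExteriorAlgebra F L)}, DirectSum.IsInternal C →
      ∀ {g h : G} {x : ExteriorAlgebra F L}, x ∈ C g → x ∈ C h → x ≠ 0 → g = h := by
    intro C hC g h x hg hh hx
    by_contra hne
    exact hx (Submodule.disjoint_def.1 (hC.submodule_iSupIndep.pairwiseDisjoint hne) x hg hh)
  have e1 : ∀ g, ∀ n, d n = g ↔ ι F (b n) ∈ B g := fun g n =>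
    ⟨fun h => h ▸ hd n, fun h => huni hB (hd n) h (hι n)⟩
  have e2 : ∀ g, ∀ n, d' n = g ↔ ι F (b n) ∈ B' g := fun g n =>
    ⟨fun h => h ▸ hd' n, fun h => huni hB' (hd' n) h (hι n)⟩
  have e3 : ∀ g, Nonempty ({n // d n = g} ≃ {n // d' n = g}) := by
    intro g
    obtain ⟨e⟩ := Cardinal.eq.1 (hc g)
    exact ⟨((Equiv.subtypeEquivRight (e1 g)).trans e).trans (Equiv.subtypeEquivRight (e2 g)).symm⟩
  let σ : ℕ ≃ ℕ := (Equiv.sigmaFiberEquiv d).symm.trans
    ((Equiv.sigmaCongrRight fun g => (e3 g).some).trans (Equiv.sigmaFiberEquiv d'))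
  have hσ : ∀ n, d' (σ n) = d n := fun n => ((e3 (d n)).some ⟨n, rfl⟩).2
  let f : ExteriorAlgebra F L ≃ₐ[F] ExteriorAlgebra F L := mapE (b.equiv b σ)
  have hf : ∀ n, f (ι F (b n)) = ι F (b (σ n)) := by
    intro n
    change mapE (b.equiv b σ) (ι F (b n)) = _
    rw [mapE_ι, Module.Basis.equiv_apply]
  obtain ⟨r, χ, hχ, hsep⟩ := exists_chars hG
  choose φ hφ using fun j => exists_inv B hB hBm (χ j) (hχ j)
  choose φ' hφ' using fun j => exists_inv B' hB' hBm' (χ j) (hχ j)
  have hcomm : ∀ j x, f (φ j x) = φ' j (f x) := by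
    intro j
    have h1 : (f : ExteriorAlgebra F L →ₐ[F] ExteriorAlgebra F L).comp
        (φ j : ExteriorAlgebra F L →ₐ[F] ExteriorAlgebra F L) =
        (φ' j : ExteriorAlgebra F L →ₐ[F] ExteriorAlgebra F L).comp
        (f : ExteriorAlgebra F L →ₐ[F] ExteriorAlgebra F L) := by
      apply ExteriorAlgebra.hom_ext
      apply b.ext
      intro n
      change f (φ j (ι F (b n))) = φ' j (f (ι F (b n)))
      have h3 : ι F (b (σ n)) ∈ B' (d n) := by
        have := hd' (σ n)
        rwa [hσ] at this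
      rw [hφ j (d n) _ (hd n), map_smul, hf, hφ' j (d n) _ h3]
    exact fun x => congrArg (fun l : ExteriorAlgebra F L →ₐ[F] ExteriorAlgebra F L => l x) h1
  refine ⟨f, fun g x => ⟨fun hx => ?_, fun hx => ?_⟩⟩
  · apply mem_of_eigen hB' hBm' h2 hsep hφ'
    intro j
    rw [← hcomm, hφ j g x hx, map_smul]
  · apply mem_of_eigen hB hBm h2 hsep hφ
    intro j
    apply f.injective
    rw [hcomm, hφ' j g _ hx, map_smul]

end cls

end Pool.Agent.Y207.GR
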