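import Pool.Agent.Y207.GR.Inv

/-!
# Homogeneous gradings with prescribed degrees of the generators
-/

set_option autoImplicit false

open ExteriorAlgebra

noncomputable section

namespace Pool.Agent.Y207.GR

open Pool.Agent.H89R3.Gr

lemma exists_chars' {G : Type*} [AddCommGroup G] [Finite G] (hG : ∀ g : G, g + g = 0) :
    ∃ (r : ℕ) (χ : Fin r → G → ZMod 2), (∀ j g h, χ j (g + h) = χ j g + χ j h) ∧
      (∀ g h, (∀ j, χ j g = χ j h) → g = h) ∧ ∀ a : Fin r → ZMod 2, ∃ g, ∀ j, χ j g = a j := by
  classical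
  letI : Module (ZMod 2) G := AddCommGroup.zmodModule (n := 2) (fun g => by rw [two_nsmul]; exact hG g)
  let bG := Module.finBasis (ZMod 2) G
  refine ⟨_, fun j g => bG.repr g j, fun j g h => by simp,
    fun g h hh => bG.repr.injective (Finsupp.ext hh), fun a => ⟨bG.equivFun.symm a, fun j => ?_⟩⟩
  change bG.repr (bG.equivFun.symm a) j = a j
  rw [← Module.Basis.equivFun_apply, LinearEquiv.apply_symm_apply]

lemma eq_sg {F : Type*} [Field F] {x : F} (h : x * x = 1) : ∃ a : ZMod 2, x = sg a := by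
  rcases mul_self_eq_one_iff.1 h with h | h
  · exact ⟨0, by rw [h, sg0]⟩
  · exact ⟨1, by rw [h, sg1]⟩

theorem realize {F : Type*} [Field F] {L : Type*} [AddCommGroup L] [Module F L]
    (h2 : (2:F) ≠ 0) (b : Module.Basis ℕ F L) {G : Type*} [AddCommGroup G] [DecidableEq G]
    [Finite G] (hG : ∀ g : G, g + g = 0) (c : ℕ → G) :
    ∃ B : G → Submodule F (ExteriorAlgebra F L), DirectSum.IsInternal B ∧
      (∀ g h : G, ∀ x ∈ B g, ∀ y ∈ B h, x * y ∈ B (g + h)) ∧ ∀ n, ι F (b n) ∈ B (c n) := by
  classical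
  have := Fintype.ofFinite G
  obtain ⟨r, χ, hχ, hsep, hsurj⟩ := exists_chars' hG
  let ψ : Fin r → ExteriorAlgebra F L →ₐ[F] ExteriorAlgebra F L := fun j =>
    ExteriorAlgebra.map (b.constr F fun n => (sg (χ j (c n)) : F) • b n)
  have hψ : ∀ j n, ψ j (ι F (b n)) = (sg (χ j (c n)) : F) • ι F (b n) := by
    intro j n
    change ExteriorAlgebra.map _ (ι F (b n)) = _
    rw [map_apply_ι, Module.Basis.constr_basis, map_smul]
  have hψψ : ∀ j x, ψ j (ψ j x) = x := by
    intro j
    have h1 : (ψ j).comp (ψ j) = AlgHom.id F _ := by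
      apply ExteriorAlgebra.hom_ext
      apply b.ext
      intro n
      change ψ j (ψ j (ι F (b n))) = ι F (b n)
      rw [hψ, map_smul, hψ, smul_smul, sg_sq, one_smul]
    exact fun x => congrArg (fun l : ExteriorAlgebra F L →ₐ[F] ExteriorAlgebra F L => l x) h1
  have hψc : ∀ i j x, ψ i (ψ j x) = ψ j (ψ i x) := by
    intro i j
    have h1 : (ψ i).comp (ψ j) = (ψ j).comp (ψ i) := by
      apply ExteriorAlgebra.hom_ext
      apply b.ext
      intro n
      change ψ i (ψ j (ι F (b n))) = ψ j (ψ i (ι F (b n)))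
      rw [hψ, map_smul, hψ, map_smul, hψ, smul_comm]
    exact fun x => congrArg (fun l : ExteriorAlgebra F L →ₐ[F] ExteriorAlgebra F L => l x) h1
  obtain ⟨κ, b0, ε, hε, hb0⟩ := diagAll h2 r (ExteriorAlgebra F L)
    (fun j => (ψ j).toLinearMap) hψψ hψc
  choose a ha using fun j i => eq_sg (hε j i)
  choose dg hdg using fun i => hsurj fun j => a j i
  have hbψ : ∀ j i, ψ j (b0 i) = (sg (χ j (dg i)) : F) • b0 i := by
    intro j i
    rw [hdg, ← ha]
    exact hb0 j i
  let B : G → Submodule F (ExteriorAlgebra F L) := fun g =>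
    { carrier := {x | ∀ j, ψ j x = (sg (χ j g) : F) • x}
      zero_mem' := fun j => by simp
      add_mem' := fun {x y} hx hy j => by rw [map_add, hx j, hy j, smul_add]
      smul_mem' := fun a x hx j => by rw [map_smul, hx j, smul_comm] }
  have hB : ∀ g x, x ∈ B g ↔ ∀ j, ψ j x = (sg (χ j g) : F) • x := fun g x => Iff.rfl
  have hco : ∀ h y, y ∈ B h → ∀ i, b0.repr y i ≠ 0 → dg i = h := by
    intro h y hy i hi
    apply hsep
    intro j
    have h3 : ∀ y, b0.repr (ψ j y) i = (sg (χ j (dg i)) : F) * b0.repr y i := by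
      intro y
      have h4 : (Finsupp.lapply i ∘ₗ (b0.repr : ExteriorAlgebra F L →ₗ[F] κ →₀ F) ∘ₗ
          (ψ j).toLinearMap) = (sg (χ j (dg i)) : F) •
            (Finsupp.lapply i ∘ₗ (b0.repr : ExteriorAlgebra F L →ₗ[F] κ →₀ F)) := by
        apply b0.ext
        intro n
        change b0.repr (ψ j (b0 n)) i = (sg (χ j (dg i)) : F) • b0.repr (b0 n) i
        by_cases hni : n = i
        · subst hni
          rw [hbψ, map_smul]
          rfl
        · rw [hbψ, map_smul, Finsupp.smul_apply, Module.Basis.repr_self,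
            Finsupp.single_eq_of_ne (Ne.symm hni), smul_zero, smul_zero]
      exact congrArg (fun l : ExteriorAlgebra F L →ₗ[F] F => l y) h4
    have h5 := h3 y
    rw [(hB h y).1 hy j, map_smul, Finsupp.smul_apply, smul_eq_mul] at h5
    exact sg_inj h2 (mul_right_cancel₀ hi h5.symm)
  let p : G → ExteriorAlgebra F L →ₗ[F] ExteriorAlgebra F L := fun g =>
    b0.constr F fun i => if dg i = g then b0 i else 0
  have hp : ∀ g x, p g x = ∑ i ∈ (b0.repr x).support,
      b0.repr x i • (if dg i = g then b0 i else 0) := by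
    intro g x
    change b0.constr F _ x = _
    rw [Module.Basis.constr_apply, Finsupp.sum]
  have hpB : ∀ g x, p g x ∈ B g := by
    intro g x
    rw [hp]
    refine Submodule.sum_mem _ fun i _ => Submodule.smul_mem _ _ ?_
    split_ifs with h
    · rw [hB]
      intro j
      rw [hbψ, h]
    · exact Submodule.zero_mem _
  have hsum : ∀ x, ∑ g, p g x = x := by
    intro x
    have h1 : ∑ g, p g = LinearMap.id := by
      apply b0.ext
      intro i
      rw [LinearMap.sum_apply, LinearMap.id_apply]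
      have h3 : ∀ g, p g (b0 i) = if dg i = g then b0 i else 0 := fun g =>
        Module.Basis.constr_basis _ _ _ _
      simp only [h3]
      rw [Finset.sum_ite_eq, if_pos (Finset.mem_univ _)]
    have h3 := congrArg (fun l : ExteriorAlgebra F L →ₗ[F] ExteriorAlgebra F L => l x) h1
    simpa [LinearMap.sum_apply] using h3
  have hself : ∀ g, ∀ x ∈ B g, p g x = x := by
    intro g x hx
    rw [hp]
    conv_rhs => rw [← b0.linearCombination_repr x, Finsupp.linearCombination_apply, Finsupp.sum]
    refine Finset.sum_congr rfl fun i hi => ?_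
    rw [if_pos (hco g x hx i (Finsupp.mem_support_iff.1 hi))]
  have hzero : ∀ g h, h ≠ g → ∀ x ∈ B h, p g x = 0 := by
    intro g h hne x hx
    rw [hp]
    refine Finset.sum_eq_zero fun i hi => ?_
    rw [if_neg, smul_zero]
    rw [hco h x hx i (Finsupp.mem_support_iff.1 hi)]
    exact hne
  refine ⟨B, ?_, fun g h x hx y hy => ?_, fun n => ?_⟩
  · rw [DirectSum.isInternal_submodule_iff_iSupIndep_and_iSup_eq_top]
    constructor
    · rw [iSupIndep_def]
      intro g
      rw [Submodule.disjoint_def]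
      intro x hx hx'
      have h1 : (⨆ h, ⨆ _ : h ≠ g, B h) ≤ LinearMap.ker (p g) :=
        iSup₂_le fun h hne y hy => LinearMap.mem_ker.2 (hzero g h hne y hy)
      rw [← hself g x hx]
      exact LinearMap.mem_ker.1 (h1 hx')
    · rw [eq_top_iff]
      intro x _
      rw [← hsum x]
      exact Submodule.sum_mem _ fun g _ => (le_iSup B g) (hpB g x)
  · rw [hB] at hx hy ⊢
    intro j
    rw [map_mul, hx j, hy j, hχ, sg_add, smul_mul_smul_comm]
  · rw [hB]
    exact fun j => hψ j n

end Pool.Agent.Y207.GR
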