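import Pool.Agent.Y207.GR.Eqv

/-!
# Commuting involutions of the Grassmann algebra are simultaneously conjugate to diagonal ones
-/

set_option autoImplicit false

open ExteriorAlgebra

noncomputable section

namespace Pool.Agent.Y207.GR

open Pool.Agent.H89R3.Gr

universe w

variable {F : Type*} [Field F] (h2 : (2:F) ≠ 0)

include h2 in
/-- Step 0: conjugate an involution to one commuting with the parity -/
theorem step0' {φ : E F ≃ₐ[F] E F} (hφ : φ * φ = 1) :
    ∃ k : E F ≃ₐ[F] E F, (k⁻¹ * φ * k) * tau = tau * (k⁻¹ * φ * k) ∧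
      ∀ c : E F ≃ₐ[F] E F, Commute c φ → Commute c tau → Commute c k := by
  set τ : E F ≃ₐ[F] E F := tau with hτ
  have hττ : τ * τ = 1 := tau_sq
  have hφ' : φ⁻¹ = φ := inv_eq_of_mul_eq_one_left hφ
  have hτ' : τ⁻¹ = τ := inv_eq_of_mul_eq_one_left hττ
  set h : E F ≃ₐ[F] E F := φ * τ * φ * τ with hh
  have hha : ∀ x, h x = φ (τ (φ (τ x))) := fun x => rfl
  have hφφ : ∀ x, φ (φ x) = x := fun x => by
    have := congrArg (fun l : E F ≃ₐ[F] E F => l x) hφ
    simpa using this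
  have heven : ∀ x, τ x = x → h x = x := by
    intro x hx
    rw [hha, hx]
    have h1 : τ (φ x) = φ x := even_map h2 hx
    rw [h1, hφφ]
  have hodd : ∀ x, τ x = -x → h (h x - x) = h x - x := by
    intro x hx
    apply heven
    have h1 : h x - x = - φ (φ x + τ (φ x)) := by
      rw [hha, hx, map_neg, map_neg, map_neg, map_add, hφφ]; abel
    rw [h1, map_neg]
    congr 1
    apply even_map h2
    change τ (φ x + τ (φ x)) = _
    rw [map_add]
    have : τ (τ (φ x)) = φ x := tau_tau _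
    rw [this, add_comm]
  have hun : Un h := by
    intro x
    refine ⟨2, ?_⟩
    have h1 : ((lin h - 1 : Module.End F (E F)) ^ 2) x = h (h x - x) - (h x - x) := by
      rw [pow_two, Module.End.mul_apply]; simp
    rw [h1]
    apply cancel2 h2
    rw [smul_zero, smul_sub, ← map_smul]
    have h3 : (2:F) • (h x - x) = (h (x + τ x) - (x + τ x)) + (h (x - τ x) - (x - τ x)) := by
      rw [two_smul, map_add, map_sub]; abel
    have h4 : h (x + τ x) = x + τ x := by
      apply heven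
      rw [map_add]
      have : τ (τ x) = x := tau_tau _
      rw [this, add_comm]
    have h5 : h (h (x - τ x) - (x - τ x)) = h (x - τ x) - (x - τ x) := by
      apply hodd
      rw [map_sub]
      have : τ (τ x) = x := tau_tau _
      rw [this]; abel
    rw [h3, h4, sub_self, zero_add, h5, sub_self]
  obtain ⟨r, hr, hrun, hrc, -⟩ := exists_root h2 hun
  have e1 : τ * h * τ = h⁻¹ := by
    rw [hh, mul_inv_rev, mul_inv_rev, mul_inv_rev, hφ', hτ']
    calc τ * (φ * τ * φ * τ) * τ = τ * φ * τ * φ * (τ * τ) := by group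
      _ = τ * (φ * (τ * φ)) := by rw [hττ]; group
  have e2 : φ * h * φ = h⁻¹ := by
    rw [hh, mul_inv_rev, mul_inv_rev, mul_inv_rev, hφ', hτ']
    calc φ * (φ * τ * φ * τ) * φ = (φ * φ) * τ * φ * τ * φ := by group
      _ = τ * (φ * (τ * φ)) := by rw [hφ]; group
  have f1 : τ * r * τ = r⁻¹ := inv_root h2 hττ e1 hr hrun hrc
  have f2 : φ * r * φ = r⁻¹ := inv_root h2 hφ e2 hr hrun hrc
  have f1' : τ * r⁻¹ * τ = r := by
    have := congrArg (fun x => x⁻¹) f1
    simp only [mul_inv_rev, inv_inv, hτ'] at this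
    rw [← mul_assoc] at this
    exact this
  have f2' : φ * r⁻¹ * φ = r := by
    have := congrArg (fun x => x⁻¹) f2
    simp only [mul_inv_rev, inv_inv, hφ'] at this
    rw [← mul_assoc] at this
    exact this
  set m : E F ≃ₐ[F] E F := r⁻¹ * τ with hm
  have hmm : m * m = 1 := by
    calc m * m = r⁻¹ * (τ * r⁻¹ * τ) := by rw [hm]; group
      _ = 1 := by rw [f1']; group
  have hrh : r * h = r⁻¹ := by
    have : r * (r * h) = 1 := by rw [← mul_assoc]; exact hr
    exact eq_inv_of_mul_eq_one_right this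
  have hφmφ : φ * m * φ = m := by
    have k1 : φ * τ * φ = h * τ := by
      rw [hh, mul_assoc (φ * τ * φ), hττ, mul_one]
    calc φ * m * φ = φ * r⁻¹ * 1 * τ * φ := by rw [hm]; group
      _ = (φ * r⁻¹ * φ) * (φ * τ * φ) := by rw [← hφ]; group
      _ = r * (h * τ) := by rw [f2', k1]
      _ = (r * h) * τ := by group
      _ = m := by rw [hrh]
  have hφm : φ * m = m * φ := by
    calc φ * m = φ * m * (φ * φ) := by rw [hφ, mul_one]
      _ = (φ * m * φ) * φ := by group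
      _ = m * φ := by rw [hφmφ]
  have hτm : τ * m = r := by
    rw [hm, ← mul_assoc]; 
    exact f1'
  obtain ⟨k, hk, hkun, hkc, -⟩ := exists_root h2 (h := τ * m) (by rw [hτm]; exact hrun)
  have hconj : m * k = k * τ := conj_root h2 hmm hττ hk hkun hkc
  refine ⟨k, ?_, fun c hcφ hcτ => ?_⟩
  swap
  · have c1 : Commute c h := ((hcφ.mul_right hcτ).mul_right hcφ).mul_right hcτ
    have c2 : Commute c r := hrc c c1.eq
    have c3 : Commute c m := c2.inv_right.mul_right hcτ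
    exact hkc c (hcτ.mul_right c3).eq
  have hτk : τ = k⁻¹ * m * k := by
    rw [mul_assoc, hconj]; group
  calc k⁻¹ * φ * k * τ = k⁻¹ * φ * k * (k⁻¹ * m * k) := by rw [← hτk]
    _ = k⁻¹ * (φ * m) * k := by group
    _ = k⁻¹ * (m * φ) * k := by rw [hφm]
    _ = (k⁻¹ * m * k) * (k⁻¹ * φ * k) := by group
    _ = τ * (k⁻¹ * φ * k) := by rw [← hτk]


include h2 in
/-- Commuting involutions of a vector space have a basis of common eigenvectors. -/
lemma diagAll : ∀ (n : ℕ) (V : Type w) [AddCommGroup V] [Module F V] (T : Fin n → Module.End F V),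
    (∀ j x, T j (T j x) = x) → (∀ i j x, T i (T j x) = T j (T i x)) →
    ∃ (κ : Type w) (b : Module.Basis κ F V) (ε : Fin n → κ → F), (∀ j i, ε j i * ε j i = 1) ∧
      ∀ j i, T j (b i) = ε j i • b i := by
  classical
  intro n
  induction n with
  | zero =>
    intro V _ _ T _ _
    exact ⟨_, Module.Basis.ofVectorSpace F V, fun j => j.elim0, fun j => j.elim0, fun j => j.elim0⟩
  | succ n ih =>
    intro V _ _ T hT hc
    set P : Submodule F V := LinearMap.ker (T 0 - LinearMap.id) with hP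
    set Q : Submodule F V := LinearMap.ker (T 0 + LinearMap.id) with hQ
    have hPm : ∀ m, m ∈ P ↔ T 0 m = m := fun m => by simp [hP, sub_eq_zero]
    have hQm : ∀ m, m ∈ Q ↔ T 0 m = -m := fun m => by simp [hQ, add_eq_zero_iff_eq_neg]
    have hPQ : IsCompl P Q := by
      constructor
      · rw [Submodule.disjoint_def]
        intro m h1 h3
        rw [hPm] at h1
        rw [hQm] at h3
        apply cancel2 h2
        rw [two_smul, smul_zero]
        nth_rewrite 1 [← h1]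
        rw [h3]; simp
      · rw [codisjoint_iff, eq_top_iff]
        intro m _
        have : m = (2:F)⁻¹ • (m + T 0 m) + (2:F)⁻¹ • (m - T 0 m) := by
          rw [← smul_add]
          have : m + T 0 m + (m - T 0 m) = (2:F) • m := by rw [two_smul]; abel
          rw [this, smul_smul, inv_mul_cancel₀ h2, one_smul]
        rw [this]
        apply Submodule.add_mem_sup
        · apply Submodule.smul_mem
          rw [hPm, map_add, hT]; abel
        · apply Submodule.smul_mem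
          rw [hQm, map_sub, hT]; abel
    have hPs : ∀ j : Fin n, ∀ x ∈ P, T j.succ x ∈ P := by
      intro j x hx
      rw [hPm] at hx ⊢
      rw [hc, hx]
    have hQs : ∀ j : Fin n, ∀ x ∈ Q, T j.succ x ∈ Q := by
      intro j x hx
      rw [hQm] at hx ⊢
      rw [hc, hx, map_neg]
    obtain ⟨κ1, b1, ε1, h1, h1'⟩ := ih P (fun j => (T j.succ).restrict (hPs j))
      (fun j x => Subtype.ext (hT _ _)) (fun i j x => Subtype.ext (hc _ _ _))
    obtain ⟨κ2, b2, ε2, h3, h3'⟩ := ih Q (fun j => (T j.succ).restrict (hQs j))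
      (fun j x => Subtype.ext (hT _ _)) (fun i j x => Subtype.ext (hc _ _ _))
    let b3 := (b1.prod b2).map (Submodule.prodEquivOfIsCompl P Q hPQ)
    have hl : ∀ i, b3 (Sum.inl i) = (b1 i : V) := fun i => by simp [b3]
    have hr : ∀ i, b3 (Sum.inr i) = (b2 i : V) := fun i => by simp [b3]
    refine ⟨κ1 ⊕ κ2, b3, fun j => Fin.cases (Sum.elim (fun _ => 1) (fun _ => -1))
      (fun j => Sum.elim (ε1 j) (ε2 j)) j, ?_, ?_⟩
    · intro j i
      refine Fin.cases ?_ (fun j => ?_) j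
      · rcases i with i | i <;> simp
      · rcases i with i | i
        · simpa using h1 j i
        · simpa using h3 j i
    · intro j i
      refine Fin.cases ?_ (fun j => ?_) j
      · rcases i with i | i
        · rw [hl, (hPm _).mp (b1 i).2]; simp
        · rw [hr, (hQm _).mp (b2 i).2]; simp
      · rcases i with i | i
        · rw [hl]
          have := congrArg (Subtype.val) (h1' j i)
          simpa using this
        · rw [hr]
          have := congrArg (Subtype.val) (h3' j i)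
          simpa using this

lemma conj_mul (k a b : E F ≃ₐ[F] E F) : (k⁻¹ * a * k) * (k⁻¹ * b * k) = k⁻¹ * (a * b) * k := by
  group

lemma conj_comm (k : E F ≃ₐ[F] E F) {a b : E F ≃ₐ[F] E F} (h : Commute a b) :
    Commute (k⁻¹ * a * k) (k⁻¹ * b * k) := by
  change _ * _ = _ * _
  rw [conj_mul, conj_mul, h.eq]

lemma conj_sq (k : E F ≃ₐ[F] E F) {a : E F ≃ₐ[F] E F} (h : a * a = 1) :
    (k⁻¹ * a * k) * (k⁻¹ * a * k) = 1 := by
  rw [conj_mul, h]; group

include h2 in
lemma stageA {r : ℕ} (φ : Fin r → E F ≃ₐ[F] E F) (hsq : ∀ j, φ j * φ j = 1)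
    (hc : ∀ i j, Commute (φ i) (φ j)) : ∀ n : ℕ, n ≤ r → ∃ k : E F ≃ₐ[F] E F,
      ∀ j : Fin r, j.1 < n → Commute (k⁻¹ * φ j * k) tau := by
  intro n
  induction n with
  | zero => exact fun _ => ⟨1, fun j hj => absurd hj (Nat.not_lt_zero _)⟩
  | succ n ih =>
    intro hn
    obtain ⟨k, hk⟩ := ih (Nat.le_of_succ_le hn)
    set m : Fin r := ⟨n, hn⟩ with hm
    obtain ⟨k', hk', hkc⟩ := step0' h2 (φ := k⁻¹ * φ m * k) (conj_sq k (hsq m))
    refine ⟨k * k', fun j hj => ?_⟩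
    have e1 : (k * k')⁻¹ * φ j * (k * k') = k'⁻¹ * (k⁻¹ * φ j * k) * k' := by group
    rw [e1]
    rcases Nat.lt_succ_iff_lt_or_eq.mp hj with h | h
    · have h3 : Commute (k⁻¹ * φ j * k) k' := hkc _ (conj_comm k (hc j m)) (hk j h)
      have h4 : k'⁻¹ * (k⁻¹ * φ j * k) * k' = k⁻¹ * φ j * k := by
        rw [mul_assoc, h3.eq, ← mul_assoc, inv_mul_cancel, one_mul]
      rw [h4]
      exact hk j h
    · have : j = m := Fin.ext h
      rw [this]
      exact hk'

include h2 in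
lemma linpart {φ1 : E F ≃ₐ[F] E F} (hk : φ1 * tau = tau * φ1) :
    ∃ T : (ℕ →₀ F) →ₗ[F] (ℕ →₀ F), ∀ x, φ1 (ι F x) - ι F (T x) ∈ (Fil 2 : Submodule F (E F)) := by
  have hlin : ∀ i, ∃ m : ℕ →₀ F, φ1 (e i) - ι F m ∈ (Fil 2 : Submodule F (E F)) := fun i =>
    Fil_one_lin h2 (odd_mem_Fil h2 (tau_odd_of_comm hk i))
  choose m hm using hlin
  refine ⟨Finsupp.linearCombination F m, fun x => ?_⟩
  set T : (ℕ →₀ F) →ₗ[F] (ℕ →₀ F) := Finsupp.linearCombination F m with hT
  have hTe : ∀ i, T (Finsupp.single i 1) = m i := fun i => by simp [hT]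
  induction x using Finsupp.induction_linear with
  | zero => simp
  | add a b ha hb =>
    have : φ1 (ι F (a + b)) - ι F (T (a + b)) = (φ1 (ι F a) - ι F (T a)) + (φ1 (ι F b) - ι F (T b)) := by
      simp only [map_add]; abel
    rw [this]
    exact Submodule.add_mem _ ha hb
  | single i c =>
    have h1 : (Finsupp.single i c : ℕ →₀ F) = c • Finsupp.single i 1 := by simp
    rw [h1, map_smul, map_smul, map_smul, map_smul, ← smul_sub, hTe]
    exact Submodule.smul_mem _ _ (hm i)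

include h2 in
lemma lin_comp {φ ψ : E F ≃ₐ[F] E F} (hφ : φ * tau = tau * φ)
    {T S : (ℕ →₀ F) →ₗ[F] (ℕ →₀ F)} (hT : ∀ x, φ (ι F x) - ι F (T x) ∈ (Fil 2 : Submodule F (E F)))
    (hS : ∀ x, ψ (ι F x) - ι F (S x) ∈ (Fil 2 : Submodule F (E F))) (x : ℕ →₀ F) :
    φ (ψ (ι F x)) - ι F (T (S x)) ∈ (Fil 2 : Submodule F (E F)) := by
  have h1 : φ (ψ (ι F x)) - ι F (T (S x)) = φ (ψ (ι F x) - ι F (S x)) +
      (φ (ι F (S x)) - ι F (T (S x))) := by rw [map_sub]; abel
  rw [h1]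
  exact Submodule.add_mem _ (comm_Fil h2 hφ 2 (hS x)) (hT _)

lemma ι_eq {y : E F} {a b : ℕ →₀ F} (h1 : y - ι F a ∈ (Fil 2 : Submodule F (E F)))
    (h3 : y - ι F b ∈ (Fil 2 : Submodule F (E F))) : a = b := by
  have h4 : ι F (a - b) ∈ (Fil 2 : Submodule F (E F)) := by
    have : ι F (a - b) = (y - ι F b) - (y - ι F a) := by rw [map_sub]; abel
    rw [this]
    exact Submodule.sub_mem _ h3 h1
  exact sub_eq_zero.mp (ι_Fil h4)

lemma eqv_ext {f g : E F ≃ₐ[F] E F} (h : ∀ i, f (e i) = g (e i)) : f = g := by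
  have h3 : (f : E F →ₐ[F] E F) = (g : E F →ₐ[F] E F) := hom_ext' h
  apply AlgEquiv.ext
  intro x
  exact congrArg (fun l : E F →ₐ[F] E F => l x) h3

include h2 in
lemma exists_diag {ε : ℕ → F} (hε : ∀ i, ε i * ε i = 1) :
    ∃ D : E F ≃ₐ[F] E F, ∀ i, D (e i) = ε i • e i := by
  have hεe : ∀ i, tau (ε i • (e i : E F)) = - (ε i • e i) := fun i => by simp
  set φ0 : E F →ₐ[F] E F := L h2 (fun i => ε i • e i) hεe with hφ0
  have hφ0e : ∀ i, φ0 (e i) = ε i • e i := fun i => by rw [hφ0, L_e]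
  have hφ0sq : φ0.comp φ0 = AlgHom.id F (E F) := by
    apply hom_ext'
    intro i
    simp only [AlgHom.comp_apply, hφ0e, map_smul, smul_smul, hε, one_smul, AlgHom.id_apply]
  exact ⟨AlgEquiv.ofAlgHom φ0 φ0 hφ0sq hφ0sq, hφ0e⟩

include h2 in
lemma good_conj {ε : ℕ → F} {φ γ : E F ≃ₐ[F] E F} (hφ : Good ε φ) (hcγ : Commute γ tau)
    (hγF : ∀ x, γ x - x ∈ (Fil 2 : Submodule F (E F))) : Good ε (γ⁻¹ * φ * γ) := by
  refine ⟨conj_sq γ hφ.sq, ?_, ?_⟩
  · have h1 : Commute φ tau := hφ.comm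
    exact ((hcγ.inv_left.mul_left h1).mul_left hcγ)
  · intro i
    change γ⁻¹ (φ (γ (e i))) - ε i • e i ∈ _
    have h1 : γ (e i) - e i ∈ (Fil 2 : Submodule F (E F)) := hγF _
    have h3 : φ (γ (e i)) - ε i • e i ∈ (Fil 2 : Submodule F (E F)) := by
      have : φ (γ (e i)) - ε i • e i = φ (γ (e i) - e i) + (φ (e i) - ε i • e i) := by
        rw [map_sub]; abel
      rw [this]
      exact Submodule.add_mem _ (comm_Fil h2 hφ.comm 2 h1) (hφ.lin i)
    have h4 : γ⁻¹ (φ (γ (e i))) - ε i • e i =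
        (γ⁻¹ (φ (γ (e i))) - φ (γ (e i))) + (φ (γ (e i)) - ε i • e i) := by abel
    rw [h4]
    exact Submodule.add_mem _ (inv_fil h2 hcγ hγF _) h3

include h2 in
lemma stageD {r : ℕ} (φ : Fin r → E F ≃ₐ[F] E F) (ε : Fin r → ℕ → F)
    (hε : ∀ j i, ε j i * ε j i = 1) (hg : ∀ j, Good (ε j) (φ j))
    (hc : ∀ i j, Commute (φ i) (φ j)) (D : Fin r → E F ≃ₐ[F] E F)
    (hD : ∀ j i, D j (e i) = ε j i • e i) :
    ∀ n : ℕ, n ≤ r → ∃ Ψ : E F ≃ₐ[F] E F, (∀ x, Ψ x - x ∈ (Fil 2 : Submodule F (E F))) ∧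
      Commute Ψ tau ∧ ∀ j : Fin r, j.1 < n → Ψ⁻¹ * φ j * Ψ = D j := by
  intro n
  induction n with
  | zero => exact fun _ => ⟨1, fun x => by simp, Commute.one_left _,
      fun j hj => absurd hj (Nat.not_lt_zero _)⟩
  | succ n ih =>
    intro hn
    obtain ⟨Ψ, hF, hτ, hj⟩ := ih (Nat.le_of_succ_le hn)
    set m : Fin r := ⟨n, hn⟩ with hm
    have hgm : Good (ε m) (Ψ⁻¹ * φ m * Ψ) := good_conj h2 (hg m) hτ hF
    obtain ⟨Ψ', h1, h3, h4⟩ := linearize' h2 (hε m) hgm
      (S := {X | X = tau ∨ ∃ j : Fin r, j.1 < n ∧ X = D j}) (by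
        rintro X (rfl | ⟨j, -, rfl⟩)
        · exact ⟨fun _ => -1, fun i => by simp⟩
        · exact ⟨ε j, hD j⟩) (by
        rintro X (rfl | ⟨j, hjn, rfl⟩)
        · exact (show Commute (Ψ⁻¹ * φ m * Ψ) tau from hgm.comm).symm
        · rw [← hj j hjn]
          exact conj_comm Ψ (hc j m))
    refine ⟨Ψ * Ψ', fun x => ?_, hτ.mul_left (h4 tau (Or.inl rfl)).symm, fun j hjn => ?_⟩
    · have h5 : (Ψ * Ψ') x - x = (Ψ (Ψ' x) - Ψ' x) + (Ψ' x - x) := by rw [mul_apply']; abel
      rw [h5]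
      exact Submodule.add_mem _ (hF _) (h3 x)
    · have e1 : (Ψ * Ψ')⁻¹ * φ j * (Ψ * Ψ') = Ψ'⁻¹ * ((Ψ⁻¹ * φ j * Ψ) * Ψ') := by group
      rw [e1]
      rcases Nat.lt_succ_iff_lt_or_eq.mp hjn with h | h
      · rw [hj j h, (h4 (D j) (Or.inr ⟨j, h, rfl⟩)).eq, ← mul_assoc, inv_mul_cancel, one_mul]
      · have hjm : j = m := Fin.ext h
        rw [hjm]
        have h5 : (Ψ⁻¹ * φ m * Ψ) * Ψ' = Ψ' * D m := by
          apply eqv_ext
          intro i
          change (Ψ⁻¹ * φ m * Ψ) (Ψ' (e i)) = Ψ' (D m (e i))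
          rw [h1, hD, map_smul]
        rw [h5, ← mul_assoc, inv_mul_cancel, one_mul]

include h2 in
/-- Commuting involutions of the Grassmann algebra have a system of common eigenvectors which is
the image of the standard generators under an automorphism. -/
theorem simul {r : ℕ} (φ : Fin r → E F ≃ₐ[F] E F) (hsq : ∀ j, φ j * φ j = 1)
    (hc : ∀ i j, Commute (φ i) (φ j)) :
    ∃ (Ψ : E F ≃ₐ[F] E F) (ε : Fin r → ℕ → F), (∀ j i, ε j i * ε j i = 1) ∧
      ∀ j i, φ j (Ψ (e i)) = ε j i • Ψ (e i) := by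
  obtain ⟨k, hk⟩ := stageA h2 φ hsq hc r le_rfl
  set φ1 : Fin r → E F ≃ₐ[F] E F := fun j => k⁻¹ * φ j * k with hφ1
  have hφ1τ : ∀ j, φ1 j * tau = tau * φ1 j := fun j => (hk j j.2).eq
  have hφ1sq : ∀ j, φ1 j * φ1 j = 1 := fun j => conj_sq k (hsq j)
  have hφ1c : ∀ i j, Commute (φ1 i) (φ1 j) := fun i j => conj_comm k (hc i j)
  choose T hT using fun j => linpart h2 (hφ1τ j)
  obtain ⟨κ, b0, ε0, hε0, hb0⟩ := diagAll h2 r (ℕ →₀ F) T
    (fun j x => by
      apply ι_eq (lin_comp h2 (hφ1τ j) (hT j) (hT j) x)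
      have : φ1 j (φ1 j (ι F x)) = ι F x :=
        congrArg (fun l : E F ≃ₐ[F] E F => l (ι F x)) (hφ1sq j)
      rw [this, sub_self]
      exact Submodule.zero_mem _)
    (fun i j x => by
      apply ι_eq (lin_comp h2 (hφ1τ i) (hT i) (hT j) x)
      have : φ1 i (φ1 j (ι F x)) = φ1 j (φ1 i (ι F x)) :=
        congrArg (fun l : E F ≃ₐ[F] E F => l (ι F x)) (hφ1c i j).eq
      rw [this]
      exact lin_comp h2 (hφ1τ j) (hT j) (hT i) x)
  let eq := b0.indexEquiv (Finsupp.basisSingleOne (R := F) (ι := ℕ))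
  let b := b0.reindex eq
  set ε : Fin r → ℕ → F := fun j i => ε0 j (eq.symm i) with hε'
  have hε : ∀ j i, ε j i * ε j i = 1 := fun j i => hε0 j _
  have hb : ∀ j i, T j (b i) = ε j i • b i := by
    intro j i
    have : b i = b0 (eq.symm i) := b0.reindex_apply eq i
    rw [this]
    exact hb0 j _
  set A : (ℕ →₀ F) ≃ₗ[F] (ℕ →₀ F) := Finsupp.basisSingleOne.equiv b (Equiv.refl ℕ) with hA
  have hAe : ∀ i, A (Finsupp.single i 1) = b i := by
    intro i
    have := (Finsupp.basisSingleOne (R := F) (ι := ℕ)).equiv_apply i b (Equiv.refl ℕ)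
    simpa using this
  set α : E F ≃ₐ[F] E F := mapE A with hα
  have hατ : α * tau = tau * α := by
    ext x
    have : (α : E F →ₐ[F] E F).comp (tau : E F ≃ₐ[F] E F) = ((tau : E F ≃ₐ[F] E F) : E F →ₐ[F] E F).comp (α : E F →ₐ[F] E F) := by
      apply ExteriorAlgebra.hom_ext
      apply LinearMap.ext
      intro m
      simp [hα]
    exact congrArg (fun l : E F →ₐ[F] E F => l x) this
  have hcα : Commute α tau := hατ
  have hαinv : α⁻¹ * tau = tau * α⁻¹ := hcα.inv_left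
  have hgood : ∀ j, Good (ε j) (α⁻¹ * φ1 j * α) := by
    intro j
    have hk' : Commute (φ1 j) tau := hφ1τ j
    refine ⟨conj_sq α (hφ1sq j), (hcα.inv_left.mul_left hk').mul_left hcα, ?_⟩
    intro i
    have h1 : (α⁻¹ * φ1 j * α) (e i) = α⁻¹ (φ1 j (ι F (b i))) := by
      have : α (e i) = ι F (b i) := by rw [hα, e, mapE_ι, hAe]
      rw [← this]; rfl
    have h3 : ε j i • (e i : E F) = α⁻¹ (ι F (T j (b i))) := by
      have : α (e i) = ι F (b i) := by rw [hα, e, mapE_ι, hAe]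
      rw [hb, map_smul, map_smul, ← this, inv_apply']
    rw [h1, h3, ← map_sub]
    exact comm_Fil h2 hαinv 2 (hT j _)
  choose D hD using fun j => exists_diag h2 (hε j)
  obtain ⟨Ψ, -, -, hΨ⟩ := stageD h2 (fun j => α⁻¹ * φ1 j * α) ε hε hgood
    (fun i j => conj_comm α (hφ1c i j)) D hD r le_rfl
  refine ⟨k * α * Ψ, ε, hε, fun j i => ?_⟩
  have h1 : φ j * (k * α * Ψ) = (k * α * Ψ) * D j := by
    rw [← hΨ j j.2]
    simp only [hφ1]
    group
  have h3 := congrArg (fun l : E F ≃ₐ[F] E F => l (e i)) h1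
  simp only [mul_apply', hD, map_smul] at h3
  exact h3

end Pool.Agent.Y207.GR
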